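import Pool.Agent.H811.SP.Vol
set_option autoImplicit false

/-!
# The pieces are convex bodies and cover the simplex
-/

namespace Pool.Agent.H811.SP

open MeasureTheory Module Set
open scoped RealInnerProductSpace ENNReal Pointwise

variable {k : ℕ}

lemma S_comb (i : Fin ((k + 1) / 2)) (a b : ℝ) (x y : E (k + 1)) :
    S i (a • x + b • y) = a * S i x + b * S i y := by
  have := (Sl i).map_add (a • x) (b • y)
  rw [map_smul, map_smul] at this
  exact this

lemma P_compact (i : Fin ((k + 1) / 2)) : IsCompact (P i) := B_compact.inter_right (P_closed i)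

lemma P'_compact : IsCompact (P' k) :=
  B_compact.inter_right (isClosed_le (by fun_prop) (by fun_prop))

lemma P_convex (i : Fin ((k + 1) / 2)) : Convex ℝ (P i) := by
  refine B_convex.inter fun x hx y hy a b ha hb hab => ⟨fun j => ?_, ?_⟩
  · rw [S_comb, S_comb]
    exact add_le_add (mul_le_mul_of_nonneg_left (hx.1 j) ha)
      (mul_le_mul_of_nonneg_left (hy.1 j) hb)
  · simp only [S_comb]
    rw [Finset.sum_add_distrib, ← Finset.mul_sum, ← Finset.mul_sum]
    nlinarith [hx.2, hy.2]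

lemma P'_convex : Convex ℝ (P' k) := by
  refine B_convex.inter fun x hx y hy a b ha hb hab => ?_
  have h1 : ∑ j, x j - x (Fin.last k) ≤ 1 / 2 := hx
  have h2 : ∑ j, y j - y (Fin.last k) ≤ 1 / 2 := hy
  show ∑ j, (a • x + b • y) j - (a • x + b • y) (Fin.last k) ≤ 1 / 2
  simp only [PiLp.add_apply, PiLp.smul_apply, smul_eq_mul]
  rw [Finset.sum_add_distrib, ← Finset.mul_sum, ← Finset.mul_sum]
  nlinarith

lemma P_interior (i : Fin ((k + 1) / 2)) : (interior (P i)).Nonempty := by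
  set e : ℝ := 1 / (8 * (k + 1)) with he
  have hk : (0 : ℝ) < k + 1 := by positivity
  have he0 : 0 < e := by positivity
  set U : Set (E (k + 1)) := {x | ((∀ j, 0 < x j) ∧ ∑ j, x j < 1) ∧
    (∀ j, j = i ∨ S j x < S i x) ∧ 1 / 2 < S i x} with hU
  have hUo : IsOpen U := by
    have e1 : U = ((⋂ j, {x : E (k + 1) | 0 < x j}) ∩ {x | ∑ j, x j < 1}) ∩
        ((⋂ j, {x | j = i ∨ S j x < S i x}) ∩ {x | 1 / 2 < S i x}) := by
      ext x
      simp [hU]
    rw [e1]
    refine ((isOpen_iInter_of_finite fun j => isOpen_lt (by fun_prop) (by fun_prop)).inter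
      (isOpen_lt (by fun_prop) (by fun_prop))).inter
      ((isOpen_iInter_of_finite fun j => ?_).inter (isOpen_lt continuous_const (S_cont i)))
    by_cases hj : j = i
    · simp [hj]
    · simp only [hj, false_or]
      exact isOpen_lt (S_cont j) (S_cont i)
  have hUP : U ⊆ P i := fun x hx => by
    have h1 : ∀ j, 0 ≤ S j x := fun j => add_nonneg (hx.1.1 _).le (hx.1.1 _).le
    refine ⟨⟨fun j => (hx.1.1 j).le, hx.1.2.le⟩, fun j => ?_, ?_⟩
    · rcases hx.2.1 j with h | h
      · rw [h]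
      · exact h.le
    · exact hx.2.2.le.trans (Finset.single_le_sum (fun j _ => h1 j) (Finset.mem_univ i))
  refine ⟨WithLp.toLp 2 fun j => e + if j = p i then 3 / 4 else 0, ?_⟩
  rw [mem_interior]
  refine ⟨U, hUP, hUo, ⟨fun j => ?_, ?_⟩, fun j => ?_, ?_⟩
  · show 0 < e + if j = p i then 3 / 4 else 0
    split_ifs <;> linarith
  · show ∑ j, (e + if j = p i then (3 / 4 : ℝ) else 0) < 1
    rw [Finset.sum_add_distrib, Finset.sum_const, Finset.card_univ, Fintype.card_fin,
      nsmul_eq_mul]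
    simp only [Finset.sum_ite_eq', Finset.mem_univ, if_true]
    have : ((k + 1 : ℕ) : ℝ) * e = 1 / 8 := by
      rw [he]
      push_cast
      field_simp
    rw [this]
    norm_num
  · by_cases hj : j = i
    · exact Or.inl hj
    · right
      show (e + if p j = p i then (3 / 4 : ℝ) else 0) + (e + if q j = p i then (3 / 4 : ℝ) else 0) <
        (e + if p i = p i then (3 / 4 : ℝ) else 0) + (e + if q i = p i then (3 / 4 : ℝ) else 0)
      rw [if_neg (fun h => hj (p_inj.1 h)), if_neg (Ne.symm p_ne), if_pos rfl,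
        if_neg (Ne.symm p_ne)]
      linarith
  · show 1 / 2 < (e + if p i = p i then (3 / 4 : ℝ) else 0) +
      (e + if q i = p i then (3 / 4 : ℝ) else 0)
    rw [if_pos rfl, if_neg (Ne.symm p_ne)]
    linarith

lemma P'_interior : (interior (P' k)).Nonempty := by
  have hk : (0 : ℝ) < k + 1 := by positivity
  set U : Set (E (k + 1)) := {x | ((∀ j, 0 < x j) ∧ ∑ j, x j < 1) ∧
    ∑ j, x j - x (Fin.last k) < 1 / 2} with hU
  have hUo : IsOpen U := by
    have e1 : U = ((⋂ j, {x : E (k + 1) | 0 < x j}) ∩ {x | ∑ j, x j < 1}) ∩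
        {x | ∑ j, x j - x (Fin.last k) < 1 / 2} := by
      ext x
      simp [hU]
    rw [e1]
    exact ((isOpen_iInter_of_finite fun j => isOpen_lt (by fun_prop) (by fun_prop)).inter
      (isOpen_lt (by fun_prop) (by fun_prop))).inter (isOpen_lt (by fun_prop) (by fun_prop))
  refine ⟨WithLp.toLp 2 fun _ => 1 / (4 * (k + 1)), ?_⟩
  rw [mem_interior]
  have h1 : ∑ _ : Fin (k + 1), (1 / (4 * (k + 1)) : ℝ) = 1 / 4 := by
    rw [Finset.sum_const, Finset.card_univ, Fintype.card_fin, nsmul_eq_mul]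
    push_cast
    field_simp
  refine ⟨U, fun x hx => ⟨⟨fun j => (hx.1.1 j).le, hx.1.2.le⟩, hx.2.le⟩, hUo,
    ⟨fun j => ?_, ?_⟩, ?_⟩
  · show (0 : ℝ) < 1 / (4 * (k + 1))
    positivity
  · show ∑ _ : Fin (k + 1), (1 / (4 * (k + 1)) : ℝ) < 1
    rw [h1]
    norm_num
  · show ∑ _ : Fin (k + 1), (1 / (4 * (k + 1)) : ℝ) - 1 / (4 * (k + 1)) < 1 / 2
    rw [h1]
    have : (0 : ℝ) < 1 / (4 * (k + 1)) := by positivity
    linarith

lemma sum_pairs (X : ℕ → ℝ) : ∀ m : ℕ,
    ∑ i ∈ Finset.range m, (X (2 * i) + X (2 * i + 1)) = ∑ j ∈ Finset.range (2 * m), X j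
  | 0 => by simp
  | m + 1 => by
    rw [Finset.sum_range_succ, sum_pairs X m, show 2 * (m + 1) = 2 * m + 1 + 1 by ring,
      Finset.sum_range_succ, Finset.sum_range_succ]
    ring

lemma pairs_le {x : E (k + 1)} (hx : ∀ j, 0 ≤ x j) :
    ∑ j, x j - x (Fin.last k) ≤ ∑ i, S i x := by
  set X : ℕ → ℝ := fun j => if h : j < k + 1 then x ⟨j, h⟩ else 0 with hX
  have h1 : ∀ j, 0 ≤ X j := fun j => by
    rw [hX]
    simp only
    split_ifs
    · exact hx _
    · exact le_rfl
  have h2 : ∑ j, x j = ∑ j ∈ Finset.range (k + 1), X j := by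
    rw [Finset.sum_range]
    refine Finset.sum_congr rfl fun j _ => ?_
    rw [hX]
    simp only
    rw [dif_pos j.2]
  have h3 : x (Fin.last k) = X k := by
    rw [hX]
    simp [Fin.last]
  have h4 : ∑ i, S i x = ∑ i ∈ Finset.range ((k + 1) / 2), (X (2 * i) + X (2 * i + 1)) := by
    rw [Finset.sum_range]
    refine Finset.sum_congr rfl fun i _ => ?_
    have hi := i.2
    rw [hX]
    simp only
    rw [dif_pos (by omega), dif_pos (by omega)]
    rfl
  rw [h2, h3, h4, sum_pairs, Finset.sum_range_succ, add_sub_cancel_right]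
  refine Finset.sum_le_sum_of_subset_of_nonneg ?_ fun j _ _ => h1 j
  intro j hj
  rw [Finset.mem_range] at hj ⊢
  omega

lemma cover (hk : 1 ≤ k) {x : E (k + 1)} (hx : x ∈ B k) : x ∈ P' k ∨ ∃ i, x ∈ P i := by
  by_cases h : ∑ j, x j - x (Fin.last k) ≤ 1 / 2
  · exact Or.inl ⟨hx, h⟩
  · right
    have : Nonempty (Fin ((k + 1) / 2)) := ⟨⟨0, by omega⟩⟩
    obtain ⟨i, hi⟩ := Finite.exists_max fun j : Fin ((k + 1) / 2) => S j x
    exact ⟨i, hx, hi, (not_le.1 h).le.trans (pairs_le hx.1)⟩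

end Pool.Agent.H811.SP
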