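import Pool.Agent.H811.SP.Fin
set_option autoImplicit false

/-!
# Projections in coordinates
-/

namespace Pool.Agent.H811.SP

open MeasureTheory Module Set Filter Topology
open scoped RealInnerProductSpace ENNReal Pointwise

variable {k : ℕ}

/-- coordinates of the orthogonal projection to the span of an orthonormal family -/
noncomputable def co {n l : ℕ} (v : Fin l → E n) (x : E n) : Fin l → ℝ := fun i => ⟪v i, x⟫

lemma area_eq (L : Submodule ℝ (E (k + 1))) (b : OrthonormalBasis (Fin k) ℝ L)
    (K : Set (E (k + 1))) : volume (co (fun i => (b i : E (k + 1))) '' K) =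
      volume (L.orthogonalProjectionOnto '' K) := by
  set e : L ≃ᵐ (Fin k → ℝ) := b.measurableEquiv.trans (MeasurableEquiv.toLp 2 (Fin k → ℝ)).symm
    with he
  have hmp : MeasurePreserving e volume volume :=
    (EuclideanSpace.volume_preserving_symm_measurableEquiv_toLp _).comp
      b.measurePreserving_measurableEquiv
  have h1 : co (fun i => (b i : E (k + 1))) '' K = e '' (L.orthogonalProjectionOnto '' K) := by
    rw [image_image]
    refine image_congr fun x _ => ?_
    funext i
    show ⟪(b i : E (k + 1)), x⟫ = b.repr (L.orthogonalProjectionOnto x) i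
    rw [b.repr_apply_apply, Submodule.coe_inner]
    have h2 : x = (L.orthogonalProjectionOnto x : E (k + 1)) +
        (x - (L.orthogonalProjectionOnto x : E (k + 1))) := by abel
    conv_lhs => rw [h2]
    rw [inner_add_right]
    have h3 : ⟪(b i : E (k + 1)), x - (L.orthogonalProjectionOnto x : E (k + 1))⟫ = 0 :=
      Submodule.inner_right_of_mem_orthogonal (b i).2 (L.sub_starProjection_mem_orthogonal x)
    rw [h3, add_zero]
  rw [h1, MeasurableEquiv.image_eq_preimage_symm]
  exact (hmp.symm e).measure_preimage_equiv _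

lemma exists_span (v : Fin k → E (k + 1)) (hv : Orthonormal ℝ v) :
    ∃ (L : Submodule ℝ (E (k + 1))) (b : OrthonormalBasis (Fin k) ℝ L),
      finrank ℝ L = k ∧ ∀ i, (b i : E (k + 1)) = v i := by
  set L := Submodule.span ℝ (Set.range v) with hL
  have hf : finrank ℝ L = k := by
    rw [hL, finrank_span_eq_card hv.linearIndependent, Fintype.card_fin]
  set w : Fin k → L := fun i => ⟨v i, Submodule.subset_span ⟨i, rfl⟩⟩ with hw
  have ho : Orthonormal ℝ w := by
    refine ⟨fun i => hv.1 i, fun i j hij => hv.2 hij⟩
  have hs : ⊤ ≤ Submodule.span ℝ (Set.range w) := by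
    have := ho.linearIndependent.span_eq_top_of_card_eq_finrank' (by rw [Fintype.card_fin, hf])
    rw [this]
  refine ⟨L, OrthonormalBasis.mk ho hs, hf, fun i => ?_⟩
  rw [OrthonormalBasis.coe_mk]

lemma area_le (L : Submodule ℝ (E (k + 1))) (hL : finrank ℝ L = k) (K : Set (E (k + 1))) :
    ∃ v : Fin k → E (k + 1), Orthonormal ℝ v ∧
      volume (co v '' K) = volume (L.orthogonalProjectionOnto '' K) := by
  set b := (stdOrthonormalBasis ℝ L).reindex (finCongr hL)
  refine ⟨fun i => (b i : E (k + 1)), ?_, area_eq L b K⟩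
  exact ⟨fun i => b.orthonormal.1 i, fun i j hij => b.orthonormal.2 hij⟩

end Pool.Agent.H811.SP
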