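import Pool.Agent.H811.SP.Few
set_option autoImplicit false

/-!
# The entropy inequality in each codimension: the profile and one step
-/

namespace Pool.Agent.H811.SP

open MeasureTheory Module Set Filter Topology
open scoped RealInnerProductSpace ENNReal Pointwise

/-- the profile `x (1 + |log x|)` -/
noncomputable def ph (x : ℝ) : ℝ := x + |x * Real.log x|

lemma ph_cont : Continuous ph := continuous_id.add Real.continuous_mul_log.abs

lemma le_ph (x : ℝ) : x ≤ ph x := le_add_of_nonneg_right (abs_nonneg _)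

lemma ph_mono {x y : ℝ} (hx : 0 ≤ x) (h : x ≤ y) : ph x ≤ ph y := by
  rcases hx.eq_or_lt with h0 | h0
  · rw [← h0]
    have : ph 0 = 0 := by simp [ph]
    rw [this]
    exact (hx.trans h).trans (le_ph y)
  have hy : 0 < y := h0.trans_le h
  by_cases hy1 : y ≤ 1
  · have l1 : Real.log x ≤ 0 := Real.log_nonpos hx (h.trans hy1)
    have l2 : Real.log y ≤ 0 := Real.log_nonpos hy.le hy1
    have e1 : ph x = x - x * Real.log x := by
      rw [ph, abs_of_nonpos (mul_nonpos_of_nonneg_of_nonpos hx l1)]
      ring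
    have e2 : ph y = y - y * Real.log y := by
      rw [ph, abs_of_nonpos (mul_nonpos_of_nonneg_of_nonpos hy.le l2)]
      ring
    rw [e1, e2]
    have h1 := Real.log_le_sub_one_of_pos (div_pos hy h0)
    rw [Real.log_div hy.ne' h0.ne'] at h1
    have h2 : x * (Real.log y - Real.log x) ≤ x * (y / x - 1) := mul_le_mul_of_nonneg_left h1 hx
    have h3 : x * (y / x - 1) = y - x := by
      field_simp
    rw [h3] at h2
    nlinarith
  · have hy1' : 1 ≤ y := (not_le.1 hy1).le
    by_cases hx1 : x ≤ 1
    · have l1 : Real.log x ≤ 0 := Real.log_nonpos hx hx1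
      have e1 : ph x = x - x * Real.log x := by
        rw [ph, abs_of_nonpos (mul_nonpos_of_nonneg_of_nonpos hx l1)]
        ring
      have h1 := Real.log_le_sub_one_of_pos (div_pos one_pos h0)
      rw [Real.log_div one_ne_zero h0.ne', Real.log_one] at h1
      have h2 : x * (0 - Real.log x) ≤ x * (1 / x - 1) := mul_le_mul_of_nonneg_left h1 hx
      have h3 : x * (1 / x - 1) = 1 - x := by
        field_simp
      rw [h3] at h2
      rw [e1]
      have h4 := le_ph y
      linarith
    · have hx1' : 1 ≤ x := (not_le.1 hx1).le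
      have l1 : 0 ≤ Real.log x := Real.log_nonneg hx1'
      have l2 : Real.log x ≤ Real.log y := Real.log_le_log h0 h
      have h5 : x * Real.log x ≤ y * Real.log y := mul_le_mul h l2 l1 hy.le
      rw [ph, ph, abs_of_nonneg (mul_nonneg hx l1), abs_of_nonneg (mul_nonneg hy.le (l1.trans l2))]
      linarith

variable {k : ℕ}

lemma co_eq (L : Submodule ℝ (E (k + 1))) (b : OrthonormalBasis (Fin k) ℝ L) :
    ∃ e : L ≃ᵐ (Fin k → ℝ), MeasurePreserving e volume volume ∧
      ∀ x, co (fun i => (b i : E (k + 1))) x = e (L.orthogonalProjectionOnto x) := by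
  refine ⟨b.measurableEquiv.trans (MeasurableEquiv.toLp 2 (Fin k → ℝ)).symm,
    (EuclideanSpace.volume_preserving_symm_measurableEquiv_toLp _).comp
      b.measurePreserving_measurableEquiv, fun x => ?_⟩
  funext i
  show ⟪(b i : E (k + 1)), x⟫ = b.repr (L.orthogonalProjectionOnto x) i
  rw [b.repr_apply_apply, Submodule.coe_inner]
  have h2 : x = (L.orthogonalProjectionOnto x : E (k + 1)) +
      (x - (L.orthogonalProjectionOnto x : E (k + 1))) := by abel
  conv_lhs => rw [h2]
  rw [inner_add_right]
  have h3 : ⟪(b i : E (k + 1)), x - (L.orthogonalProjectionOnto x : E (k + 1))⟫ = 0 :=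
    Submodule.inner_right_of_mem_orthogonal (b i).2 (L.sub_starProjection_mem_orthogonal x)
  rw [h3, add_zero]

/-- one step, in coordinates -/
lemma step_co {K : Set (E (k + 1))} (hK : IsCompact K) (hv : Convex ℝ K)
    (hi : (interior K).Nonempty) {w : Fin k → E (k + 1)} (hw : Orthonormal ℝ w)
    {B : Set (Fin k → ℝ)} (hB : MeasurableSet B) (hBt : volume B ≠ ⊤) :
    (volume (K ∩ co w ⁻¹' B)).toReal ≤
      ph ((volume B).toReal / (volume (co w '' K)).toReal) * (volume K).toReal := by
  obtain ⟨x0, hx0⟩ := hi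
  have hi' : (interior K).Nonempty := ⟨x0, hx0⟩
  rw [mem_interior_iff_mem_nhds] at hx0
  obtain ⟨ρ, hρ, hball⟩ := Metric.nhds_basis_closedBall.mem_iff.1 hx0
  have hKt : volume K ≠ ⊤ := hK.measure_lt_top.ne
  have hv0 : 0 < (volume K).toReal := ENNReal.toReal_pos (vol_pos hρ hball).ne' hKt
  obtain ⟨L, b, hL, hb⟩ := exists_span w hw
  obtain ⟨u, hu, h⟩ := exists_unit L hL
  obtain ⟨e, he, hco⟩ := co_eq L b
  have ew : co w = co fun i => (b i : E (k + 1)) := by
    funext x i
    show ⟪w i, x⟫ = ⟪(b i : E (k + 1)), x⟫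
    rw [hb]
  have hpos : sg k K ≤ volume (L.orthogonalProjectionOnto '' K) := sg_le L hL K
  have hδe : volume (co w '' K) = volume (L.orthogonalProjectionOnto '' K) := by
    rw [ew, area_eq]
  rw [hδe]
  have hDt : volume (L.orthogonalProjectionOnto '' K) ≠ ⊤ :=
    (hK.image L.orthogonalProjectionOnto.continuous).measure_lt_top.ne
  have hδ0 : 0 < (volume (L.orthogonalProjectionOnto '' K)).toReal :=
    ENNReal.toReal_pos (fun h0 => sg_pos hK hv hi' (le_antisymm (hpos.trans (le_of_eq h0))
      zero_le)) hDt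
  set V := (volume K).toReal with hV
  set δ := (volume (L.orthogonalProjectionOnto '' K)).toReal with hδ
  set β := (volume B).toReal with hβ
  have hβ0 : 0 ≤ β := ENNReal.toReal_nonneg
  have hBe : volume (e ⁻¹' B) = volume B := he.measure_preimage_equiv B
  have hset : K ∩ co w ⁻¹' B = K ∩ L.orthogonalProjectionOnto ⁻¹' (e ⁻¹' B) := by
    ext x
    simp only [mem_inter_iff, mem_preimage, ew, hco]
  have hfin : volume (K ∩ co w ⁻¹' B) ≠ ⊤ := (measure_mono inter_subset_left).trans_lt
    hK.measure_lt_top |>.ne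
  have main : ∀ s : ℝ, 0 < s →
      (volume (K ∩ co w ⁻¹' B)).toReal ≤ s * β + Real.exp (-(s * δ / V)) * V := by
    intro s hs
    have h1 := vol_over L hL u hu h hK hv (e.measurable hB) s hs.le
    rw [← hset, hBe] at h1
    have h2 := tail_real L hL u hu h hK hv hρ hball hs
    have h3 : volume (sh K u s) ≠ ⊤ := (sh_compact hK u s).measure_lt_top.ne
    have h4 := ENNReal.toReal_mono (ENNReal.add_ne_top.2
      ⟨ENNReal.mul_ne_top ENNReal.ofReal_ne_top hBt, h3⟩) h1
    rw [ENNReal.toReal_add (ENNReal.mul_ne_top ENNReal.ofReal_ne_top hBt) h3,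
      ENNReal.toReal_mul, ENNReal.toReal_ofReal hs.le] at h4
    linarith
  rcases hβ0.eq_or_lt with h0 | h0
  · rw [← h0, zero_div]
    have e0 : ph 0 = 0 := by simp [ph]
    rw [e0, zero_mul]
    have hlim : Tendsto (fun s : ℝ => s * β + Real.exp (-(s * δ / V)) * V) atTop
        (𝓝 (0 + 0 * V)) := by
      rw [← h0]
      refine Tendsto.add (by simp) (Tendsto.mul_const V ?_)
      refine Real.tendsto_exp_neg_atTop_nhds_zero.comp ?_
      refine Tendsto.atTop_div_const hv0 (tendsto_id.atTop_mul_const hδ0)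
    rw [zero_mul, add_zero] at hlim
    refine ge_of_tendsto hlim ?_
    filter_upwards [eventually_gt_atTop 0] with s hs
    exact main s hs
  · by_cases h1 : β / δ < 1
    · have hα0 : 0 < β / δ := div_pos h0 hδ0
      have hl : Real.log (β / δ) < 0 := Real.log_neg hα0 h1
      have h2 := main (V / δ * -Real.log (β / δ)) (mul_pos (div_pos hv0 hδ0) (by linarith))
      refine h2.trans (le_of_eq ?_)
      have e1 : -(V / δ * -Real.log (β / δ) * δ / V) = Real.log (β / δ) := by
        field_simp
      rw [e1, Real.exp_log hα0, ph, abs_of_nonpos (mul_nonpos_of_nonneg_of_nonpos hα0.le hl.le)]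
      field_simp
      ring
    · have h2 : 1 ≤ β / δ := not_lt.1 h1
      have h3 : (volume (K ∩ co w ⁻¹' B)).toReal ≤ V :=
        ENNReal.toReal_mono hKt (measure_mono inter_subset_left)
      have h4 := le_ph (β / δ)
      nlinarith

end Pool.Agent.H811.SP
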