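import Pool.Agent.H811.SP.Cod
set_option autoImplicit false

/-!
# The entropy inequality in each codimension: the iteration
-/

namespace Pool.Agent.H811.SP

open MeasureTheory Module Set Filter Topology
open scoped RealInnerProductSpace ENNReal Pointwise

variable {k : ℕ}

/-- the first standard vectors -/
noncomputable def sv (k : ℕ) (i : Fin k) : E (k + 1) := EuclideanSpace.single i.castSucc (1 : ℝ)

lemma sv_orth : Orthonormal ℝ (sv k) :=
  (EuclideanSpace.orthonormal_single (ι := Fin (k + 1)) (𝕜 := ℝ)).comp _
    (Fin.castSucc_injective k)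

lemma co_sv (x : E (k + 1)) : co (sv k) x = fun i => res x i := by
  funext i
  show ⟪EuclideanSpace.single i.castSucc (1 : ℝ), x⟫ = x i.castSucc
  simp [EuclideanSpace.inner_single_left]

/-- one step -/
lemma step {K : Set (E (k + 1))} (hK : IsCompact K) (hv : Convex ℝ K)
    (hi : (interior K).Nonempty) {B : Set (E k)} (hB : MeasurableSet B) (hBt : volume B ≠ ⊤) :
    (volume (K ∩ res ⁻¹' B)).toReal ≤
      ph ((volume B).toReal / (volume (res '' K)).toReal) * (volume K).toReal := by
  set e := MeasurableEquiv.toLp 2 (Fin k → ℝ) with he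
  have hmp : MeasurePreserving e.symm volume volume :=
    EuclideanSpace.volume_preserving_symm_measurableEquiv_toLp (Fin k)
  have h1 : volume (e ⁻¹' B) = volume B := (hmp.symm e.symm).measure_preimage_equiv B
  have hr : ∀ x : E (k + 1), e (co (sv k) x) = res x := fun x => by
    rw [co_sv]
    rfl
  have h2 : co (sv k) ⁻¹' (e ⁻¹' B) = res ⁻¹' B := by
    ext x
    simp only [mem_preimage, hr]
  have h3 : volume (co (sv k) '' K) = volume (res '' K) := by
    have h4 : co (sv k) '' K = e ⁻¹' (res '' K) := by
      ext y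
      simp only [mem_image, mem_preimage]
      constructor
      · rintro ⟨x, hx, rfl⟩
        exact ⟨x, hx, (hr x).symm⟩
      · rintro ⟨x, hx, h5⟩
        refine ⟨x, hx, e.injective ?_⟩
        rw [hr, h5]
    rw [h4]
    exact (hmp.symm e.symm).measure_preimage_equiv _
  have h6 := step_co hK hv hi sv_orth (e.measurable hB) (by rw [h1]; exact hBt)
  rw [h1, h2, h3] at h6
  exact h6

lemma res_image_body {K : Set (E (k + 1))} (hK : IsCompact K) (hv : Convex ℝ K)
    (hi : (interior K).Nonempty) :
    IsCompact (res '' K) ∧ Convex ℝ (res '' K) ∧ (interior (res '' K)).Nonempty := by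
  refine ⟨hK.image res_cont, ?_, ?_⟩
  · rintro _ ⟨x, hx, rfl⟩ _ ⟨y, hy, rfl⟩ a b ha hb hab
    exact ⟨a • x + b • y, hv hx hy ha hb hab, by rw [res_add, res_smul, res_smul]⟩
  · obtain ⟨x0, hx0⟩ := hi
    have hc : Continuous fun y : E k => ext y (x0 (Fin.last k)) := by
      unfold ext
      refine (PiLp.continuous_toLp 2 _).comp (continuous_pi fun i => ?_)
      refine Fin.lastCases ?_ (fun j => ?_) i
      · simp only [Fin.snoc_last]
        exact continuous_const
      · simp only [Fin.snoc_castSucc]
        fun_prop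
    refine ⟨res x0, ?_⟩
    rw [mem_interior]
    refine ⟨(fun y : E k => ext y (x0 (Fin.last k))) ⁻¹' interior K, fun y hy =>
      ⟨_, interior_subset hy, res_ext _ _⟩, isOpen_interior.preimage hc, ?_⟩
    have : ext (res x0) (x0 (Fin.last k)) = x0 := by
      ext i
      refine Fin.lastCases ?_ (fun j => ?_) i
      · rw [ext_last]
      · rw [ext_castSucc, res_apply]
    rw [mem_preimage, this]
    exact hx0

variable {l : ℕ}

/-- the first `l` coordinates -/
def resd (l : ℕ) : (d : ℕ) → E (l + d) → E l
  | 0 => fun x => x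
  | d + 1 => fun x => resd l d (res (n := l + d) x)

lemma resd_apply (d : ℕ) (x : E (l + d)) (j : Fin l) : resd l d x j = x (Fin.castAdd d j) := by
  induction d with
  | zero => rfl
  | succ d ih =>
    show resd l d (res (n := l + d) x) j = _
    rw [ih]
    rfl

lemma resd_cont (d : ℕ) : Continuous (resd l d) := by
  induction d with
  | zero => exact continuous_id
  | succ d ih => exact ih.comp res_cont

lemma vol_ne_zero {n : ℕ} {K : Set (E n)} (hi : (interior K).Nonempty) : volume K ≠ 0 :=
  (((isOpen_interior.measure_pos volume hi).trans_le (measure_mono interior_subset))).ne'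

/-- the iteration -/
lemma iter (d : ℕ) {K : Set (E (l + d))} (hK : IsCompact K) (hv : Convex ℝ K)
    (hi : (interior K).Nonempty) {B : Set (E l)} (hB : MeasurableSet B) (hBt : volume B ≠ ⊤) :
    (volume (K ∩ resd l d ⁻¹' B)).toReal ≤
      ph^[d] ((volume B).toReal / (volume (resd l d '' K)).toReal) * (volume K).toReal := by
  induction d with
  | zero =>
    have h0 : 0 < (volume K).toReal :=
      ENNReal.toReal_pos (vol_ne_zero hi) hK.measure_lt_top.ne
    have e1 : resd l 0 '' K = K := by
      show (fun x => x) '' K = K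
      exact image_id' K
    have e2 : resd l 0 ⁻¹' B = B := rfl
    rw [e1, e2, Function.iterate_zero, id, div_mul_cancel₀ _ h0.ne']
    exact ENNReal.toReal_mono hBt (measure_mono inter_subset_right)
  | succ d ih =>
    obtain ⟨c1, c2, c3⟩ := res_image_body (k := l + d) hK hv hi
    have h1 := ih c1 c2 c3
    set K' : Set (E (l + d)) := res '' K with hK'
    have hδ0 : 0 < (volume K').toReal :=
      ENNReal.toReal_pos (vol_ne_zero c3) c1.measure_lt_top.ne
    have hB' : MeasurableSet (K' ∩ resd l d ⁻¹' B) :=
      c1.measurableSet.inter ((resd_cont d).measurable hB)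
    have hBt' : volume (K' ∩ resd l d ⁻¹' B) ≠ ⊤ :=
      ((measure_mono inter_subset_left).trans_lt c1.measure_lt_top).ne
    have h2 := step (k := l + d) hK hv hi hB' hBt'
    have e1 : K ∩ res ⁻¹' (K' ∩ resd l d ⁻¹' B) = K ∩ resd l (d + 1) ⁻¹' B := by
      ext x
      constructor
      · rintro ⟨h3, -, h4⟩
        exact ⟨h3, h4⟩
      · rintro ⟨h3, h4⟩
        exact ⟨h3, ⟨x, h3, rfl⟩, h4⟩
    have e2 : resd l (d + 1) '' K = resd l d '' K' := by
      rw [hK', image_image]
      rfl
    rw [e1] at h2
    rw [e2, Function.iterate_succ_apply']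
    refine h2.trans (mul_le_mul_of_nonneg_right (ph_mono ?_ ?_) ENNReal.toReal_nonneg)
    · exact div_nonneg ENNReal.toReal_nonneg ENNReal.toReal_nonneg
    · rw [div_le_iff₀ hδ0]
      exact h1

end Pool.Agent.H811.SP
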