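import Pool.Agent.H811.SP.Cod2
set_option autoImplicit false

/-!
# The entropy inequality in each codimension
-/

namespace Pool.Agent.H811.SP

open MeasureTheory Module Set Filter Topology
open scoped RealInnerProductSpace ENNReal Pointwise

variable {l d : ℕ}

/-- an orthonormal family is a part of an orthonormal basis -/
lemma exists_basis {w : Fin l → E (l + d)} (hw : Orthonormal ℝ w) :
    ∃ b : OrthonormalBasis (Fin (l + d)) ℝ (E (l + d)), ∀ i : Fin l, b (Fin.castAdd d i) = w i := by
  classical
  set v : Fin (l + d) → E (l + d) := fun j => if h : (j : ℕ) < l then w ⟨j, h⟩ else 0 with hv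
  set S : Set (Fin (l + d)) := {j | (j : ℕ) < l} with hS
  have ho : Orthonormal ℝ (S.domRestrict v) := by
    have e1 : S.domRestrict v = w ∘ fun j : S => (⟨j.1.1, j.2⟩ : Fin l) := by
      funext j
      have hj : (j.1 : ℕ) < l := j.2
      simp [hv, Set.domRestrict, hj]
    rw [e1]
    refine hw.comp _ fun i j h => ?_
    have h1 := Fin.mk.inj_iff.1 h
    exact Subtype.ext (Fin.ext h1)
  obtain ⟨b, hb⟩ := ho.exists_orthonormalBasis_extension_of_card_eq (by simp)
  refine ⟨b, fun i => ?_⟩
  have hi : Fin.castAdd d i ∈ S := i.2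
  rw [hb _ hi, hv]
  have h2 : ((Fin.castAdd d i : Fin (l + d)) : ℕ) < l := i.2
  simp

/-- one body and one projection -/
lemma one_w {K A : Set (E (l + d))} (hK : IsCompact K) (hv : Convex ℝ K)
    (hi : (interior K).Nonempty) (hA : IsCompact A) {w : Fin l → E (l + d)}
    (hw : Orthonormal ℝ w) :
    (volume (K ∩ A)).toReal ≤
      ph^[d] ((volume (co w '' A)).toReal / (volume (co w '' K)).toReal) *
        (volume K).toReal := by
  obtain ⟨b, hb⟩ := exists_basis hw
  set f : E (l + d) ≃ₗᵢ[ℝ] E (l + d) := b.repr with hf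
  have hvol : ∀ S : Set (E (l + d)), MeasurableSet S → volume (f '' S) = volume S := fun S hS => by
    have e1 : f '' S = f.symm ⁻¹' S := by
      ext x
      constructor
      · rintro ⟨y, hy, rfl⟩
        rw [mem_preimage, f.symm_apply_apply]
        exact hy
      · intro hx
        exact ⟨f.symm x, hx, f.apply_symm_apply x⟩
    rw [e1]
    exact f.symm.measurePreserving.measure_preimage hS.nullMeasurableSet
  set e := MeasurableEquiv.toLp 2 (Fin l → ℝ) with he
  have hmp : MeasurePreserving e.symm volume volume :=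
    EuclideanSpace.volume_preserving_symm_measurableEquiv_toLp (Fin l)
  have hr : ∀ x, e (co w x) = resd l d (f x) := fun x => by
    ext j
    rw [resd_apply]
    show ⟪w j, x⟫ = b.repr x (Fin.castAdd d j)
    rw [b.repr_apply_apply, hb]
  have hco : ∀ S : Set (E (l + d)), volume (co w '' S) = volume (resd l d '' (f '' S)) :=
    fun S => by
      have h4 : co w '' S = e ⁻¹' (resd l d '' (f '' S)) := by
        ext y
        simp only [mem_image, mem_preimage]
        constructor
        · rintro ⟨x, hx, rfl⟩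
          exact ⟨f x, ⟨x, hx, rfl⟩, (hr x).symm⟩
        · rintro ⟨_, ⟨x, hx, rfl⟩, h5⟩
          refine ⟨x, hx, e.injective ?_⟩
          rw [hr, h5]
      rw [h4]
      exact (hmp.symm e.symm).measure_preimage_equiv _
  have hfK : IsCompact (f '' K) := hK.image f.continuous
  have hfA : IsCompact (f '' A) := hA.image f.continuous
  have hfv : Convex ℝ (f '' K) := hv.is_linear_image f.toLinearEquiv.toLinearMap.isLinear
  have hfi : (interior (f '' K)).Nonempty := by
    rw [show f '' K = f.toHomeomorph '' K from rfl, ← f.toHomeomorph.image_interior]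
    exact hi.image _
  have hBc : IsCompact (resd l d '' (f '' A)) := hfA.image (resd_cont d)
  have h1 := iter d hfK hfv hfi hBc.measurableSet hBc.measure_lt_top.ne
  rw [← hco, ← hco, hvol K hK.measurableSet] at h1
  refine le_trans (ENNReal.toReal_mono ?_ ?_) h1
  · exact ((measure_mono inter_subset_left).trans_lt hfK.measure_lt_top).ne
  · rw [← hvol _ (hK.inter_right hA.isClosed).measurableSet]
    refine measure_mono ?_
    rintro _ ⟨x, hx, rfl⟩
    exact ⟨⟨x, hx.1, rfl⟩, ⟨f x, ⟨x, hx.2, rfl⟩, rfl⟩⟩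

lemma sg_ne_zero {n : ℕ} {K : Set (E n)} (hi : (interior K).Nonempty) : sg l K ≠ 0 := by
  obtain ⟨x0, hx0⟩ := hi
  rw [mem_interior_iff_mem_nhds] at hx0
  obtain ⟨ρ, hρ, hball⟩ := Metric.nhds_basis_closedBall.mem_iff.1 hx0
  set s : ℝ := ρ / (l + 1) with hs
  have hs0 : 0 < s := by positivity
  have hsl : l * s ≤ ρ := by
    rw [hs, mul_div_assoc', div_le_iff₀ (by positivity)]
    nlinarith
  have key : volume (Metric.ball (0 : Fin l → ℝ) s) ≤ sg l K := by
    refine le_iInf₂ fun w hw => ?_
    rw [← Measure.addHaar_ball_center volume (co w x0) s]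
    refine measure_mono fun y hy => ?_
    set c : Fin l → ℝ := y - co w x0 with hc
    have hcn : ∀ i, |c i| ≤ s := fun i => by
      have h1 := norm_le_pi_norm c i
      have h2 : ‖c‖ < s := by
        rw [hc, ← dist_eq_norm]
        exact hy
      rw [Real.norm_eq_abs] at h1
      linarith
    set z : E n := ∑ i, c i • w i with hz
    have hzn : ‖z‖ ≤ ρ := by
      calc ‖z‖ ≤ ∑ i, ‖c i • w i‖ := norm_sum_le _ _
        _ ≤ ∑ _ : Fin l, s := Finset.sum_le_sum fun i _ => by
            rw [norm_smul, hw.1 i, mul_one, Real.norm_eq_abs]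
            exact hcn i
        _ = l * s := by rw [Finset.sum_const, Finset.card_univ, Fintype.card_fin, nsmul_eq_mul]
        _ ≤ ρ := hsl
    refine ⟨x0 + z, hball ?_, ?_⟩
    · rw [mem_closedBall_iff_norm, add_sub_cancel_left]
      exact hzn
    · funext i
      have h7 : y i = co w x0 i + c i := by
        rw [hc]
        simp
      rw [h7]
      show ⟪w i, x0 + z⟫ = ⟪w i, x0⟫ + c i
      rw [inner_add_right, hz, hw.inner_right_fintype]
  intro h0
  rw [h0] at key
  exact absurd key (not_le.2 (Metric.measure_ball_pos volume 0 hs0))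

lemma ph_iter_nonneg (d : ℕ) {x : ℝ} (hx : 0 ≤ x) : 0 ≤ ph^[d] x := by
  induction d with
  | zero => exact hx
  | succ d ih =>
    rw [Function.iterate_succ_apply']
    exact ih.trans (le_ph _)

lemma ph_iter_mono (d : ℕ) {x y : ℝ} (hx : 0 ≤ x) (h : x ≤ y) : ph^[d] x ≤ ph^[d] y := by
  induction d with
  | zero => exact h
  | succ d ih =>
    rw [Function.iterate_succ_apply', Function.iterate_succ_apply']
    exact ph_mono (ph_iter_nonneg d hx) ih

lemma ph_iter_le (d : ℕ) {x : ℝ} (hx : 0 < x) (h1 : x ≤ 1) :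
    x ≤ ph^[d] x ∧ ph^[d] x ≤ 1 ∧ ph^[d] x ≤ x * (1 + |Real.log x|) ^ d := by
  induction d with
  | zero => exact ⟨le_rfl, h1, by simp⟩
  | succ d ih =>
    rw [Function.iterate_succ_apply']
    obtain ⟨a1, a2, a3⟩ := ih
    set y := ph^[d] x
    have hy : 0 < y := hx.trans_le a1
    refine ⟨a1.trans (le_ph y), ?_, ?_⟩
    · have := ph_mono hy.le a2
      refine this.trans (le_of_eq ?_)
      simp [ph]
    · have l1 : Real.log y ≤ 0 := Real.log_nonpos hy.le a2
      have l2 : Real.log x ≤ Real.log y := Real.log_le_log hx a1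
      have l3 : |Real.log y| ≤ |Real.log x| := by
        rw [abs_of_nonpos l1, abs_of_nonpos (l2.trans l1)]
        linarith
      have e1 : ph y = y * (1 + |Real.log y|) := by
        rw [ph, abs_mul, abs_of_pos hy]
        ring
      rw [e1, pow_succ, ← mul_assoc]
      have hn : 0 ≤ 1 + |Real.log y| := by positivity
      exact mul_le_mul a3 (by linarith) hn (by positivity)

/-- one body -/
lemma one_cod {K A : Set (E (l + d))} (hK : IsCompact K) (hv : Convex ℝ K)
    (hi : (interior K).Nonempty) (hA : IsCompact A) :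
    (volume (K ∩ A)).toReal ≤
      ph^[d] ((sg l A).toReal / (sg l K).toReal) * (volume K).toReal := by
  have hst : sg l K ≠ ⊤ := sg_ne_top (Nat.le_add_right l d) hK
  have hat : sg l A ≠ ⊤ := sg_ne_top (Nat.le_add_right l d) hA
  have hσ0 : 0 < (sg l K).toReal := ENNReal.toReal_pos (sg_ne_zero hi) hst
  set σ := (sg l K).toReal with hσ
  set τ := (sg l A).toReal with hτ
  have hτ0 : 0 ≤ τ := ENNReal.toReal_nonneg
  have key : ∀ c : ℝ, τ < c → (volume (K ∩ A)).toReal ≤ ph^[d] (c / σ) * (volume K).toReal := by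
    intro c hc
    have h1 : sg l A < ENNReal.ofReal c := by
      rw [← ENNReal.ofReal_toReal hat]
      exact (ENNReal.ofReal_lt_ofReal_iff (hτ0.trans_lt hc)).2 hc
    unfold sg at h1
    rw [iInf_lt_iff] at h1
    obtain ⟨w, h1⟩ := h1
    rw [iInf_lt_iff] at h1
    obtain ⟨hw, h1⟩ := h1
    have hwt : volume (co w '' K) ≠ ⊤ := (hK.image (by
      unfold co
      fun_prop)).measure_lt_top.ne
    have h2 : σ ≤ (volume (co w '' K)).toReal := ENNReal.toReal_mono hwt (iInf₂_le w hw)
    have h3 : (volume (co w '' A)).toReal ≤ c := by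
      have := ENNReal.toReal_mono ENNReal.ofReal_ne_top h1.le
      rwa [ENNReal.toReal_ofReal (hτ0.trans hc.le)] at this
    refine (one_w hK hv hi hA hw).trans (mul_le_mul_of_nonneg_right (ph_iter_mono d ?_ ?_)
      ENNReal.toReal_nonneg)
    · exact div_nonneg ENNReal.toReal_nonneg ENNReal.toReal_nonneg
    · exact div_le_div₀ (hτ0.trans hc.le) h3 hσ0 h2
  have hlim : Tendsto (fun c : ℝ => ph^[d] (c / σ) * (volume K).toReal) (𝓝[>] τ)
      (𝓝 (ph^[d] (τ / σ) * (volume K).toReal)) := by
    have hc : Continuous fun c : ℝ => ph^[d] (c / σ) * (volume K).toReal :=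
      ((ph_cont.iterate d).comp (continuous_id.div_const σ)).mul continuous_const
    exact (hc.tendsto τ).mono_left nhdsWithin_le_nhds
  refine ge_of_tendsto hlim ?_
  filter_upwards [self_mem_nhdsWithin] with c hc
  exact key c hc

/-- **the entropy inequality in codimension `d`** -/
lemma ent_cod {K : Set (E (l + d))} (hK : IsCompact K) (hv : Convex ℝ K)
    (hi : (interior K).Nonempty) {I : Type} [Countable I] {A : I → Set (E (l + d))}
    (hA : ∀ i, IsCompact (A i)) (hi' : ∀ i, (interior (A i)).Nonempty) (hc : K ⊆ ⋃ i, A i) :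
    1 ≤ ∑' i, ENNReal.ofReal ((sg l (A i) / sg l K).toReal *
      (1 + |Real.log (sg l (A i) / sg l K).toReal|) ^ d) := by
  have hKt : volume K ≠ ⊤ := hK.measure_lt_top.ne
  have hK0 : volume K ≠ 0 := vol_ne_zero hi
  have h1 : volume K ≤ ∑' i, volume (K ∩ A i) := by
    have : K ⊆ ⋃ i, K ∩ A i := fun x hx => by
      obtain ⟨i, hi⟩ := mem_iUnion.1 (hc hx)
      exact mem_iUnion.2 ⟨i, hx, hi⟩
    exact (measure_mono this).trans (measure_iUnion_le _)
  have hone : ∀ i, volume (K ∩ A i) ≤ ENNReal.ofReal ((sg l (A i) / sg l K).toReal *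
      (1 + |Real.log (sg l (A i) / sg l K).toReal|) ^ d) * volume K := by
    intro i
    have hst : sg l K ≠ ⊤ := sg_ne_top (Nat.le_add_right l d) hK
    have hat : sg l (A i) ≠ ⊤ := sg_ne_top (Nat.le_add_right l d) (hA i)
    have hσ0 : 0 < (sg l K).toReal := ENNReal.toReal_pos (sg_ne_zero hi) hst
    have hτ0 : 0 < (sg l (A i)).toReal := ENNReal.toReal_pos (sg_ne_zero (hi' i)) hat
    rw [ENNReal.toReal_div]
    have h2 := one_cod hK hv hi (hA i)
    set x := (sg l (A i)).toReal / (sg l K).toReal with hx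
    have hx0 : 0 < x := div_pos hτ0 hσ0
    have hfin : volume (K ∩ A i) ≠ ⊤ := ((measure_mono inter_subset_left).trans_lt
      hK.measure_lt_top).ne
    have hp : 0 ≤ x * (1 + |Real.log x|) ^ d := by positivity
    have h3 : (volume (K ∩ A i)).toReal ≤ x * (1 + |Real.log x|) ^ d * (volume K).toReal := by
      by_cases hx1 : x ≤ 1
      · exact h2.trans (mul_le_mul_of_nonneg_right (ph_iter_le d hx0 hx1).2.2
          ENNReal.toReal_nonneg)
      · have h4 : 1 ≤ x := (not_le.1 hx1).le
        have h5 : 1 ≤ (1 + |Real.log x|) ^ d := one_le_pow₀ (by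
          have := abs_nonneg (Real.log x)
          linarith)
        have h6 : (volume (K ∩ A i)).toReal ≤ (volume K).toReal :=
          ENNReal.toReal_mono hKt (measure_mono inter_subset_left)
        have h7 : 1 ≤ x * (1 + |Real.log x|) ^ d := by nlinarith
        have h8 : 0 ≤ (volume K).toReal := ENNReal.toReal_nonneg
        nlinarith
    rw [← ENNReal.ofReal_toReal hfin]
    conv_rhs => rw [← ENNReal.ofReal_toReal hKt]
    rw [← ENNReal.ofReal_mul hp]
    exact ENNReal.ofReal_le_ofReal h3
  have h2 : volume K ≤ (∑' i, ENNReal.ofReal ((sg l (A i) / sg l K).toReal *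
      (1 + |Real.log (sg l (A i) / sg l K).toReal|) ^ d)) * volume K := by
    rw [← ENNReal.tsum_mul_right]
    exact h1.trans (ENNReal.tsum_le_tsum hone)
  by_contra h
  have h3 := ENNReal.mul_lt_mul_left hK0 hKt (not_le.1 h)
  rw [one_mul] at h3
  exact absurd h2 (not_le.2 h3)

end Pool.Agent.H811.SP
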