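import Pool.Agent.H811.SP.Br
import Pool.Graph.R_seed8.H212R2.KLS.T1
set_option autoImplicit false

/-!
# Long chords are rare
-/

namespace Pool.Agent.H811.SP

open MeasureTheory Module Set Filter Topology
open scoped RealInnerProductSpace ENNReal Pointwise

variable {k : ℕ}

/-- the points whose chord goes on for the length `s` -/
def sh (K : Set (E (k + 1))) (u : E (k + 1)) (s : ℝ) : Set (E (k + 1)) :=
  {x | x ∈ K ∧ x + s • u ∈ K}

lemma sh_compact {K : Set (E (k + 1))} (hK : IsCompact K) (u : E (k + 1)) (s : ℝ) :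
    IsCompact (sh K u s) := by
  have : IsClosed {x | x + s • u ∈ K} := hK.isClosed.preimage (by fun_prop)
  exact hK.inter_right this

/-- log-concavity of the covariogram -/
lemma cov_pl {K : Set (E (k + 1))} (hK : IsCompact K) (hv : Convex ℝ K) (u : E (k + 1)) (s θ : ℝ)
    (h0 : 0 < θ) (h1 : θ < 1) :
    volume K ^ (1 - θ) * volume (sh K u s) ^ θ ≤ volume (sh K u (θ * s)) := by
  have hm := hK.measurableSet
  have hm1 := (sh_compact hK u s).measurableSet
  have hm2 := (sh_compact hK u (θ * s)).measurableSet
  have h := Pool.Agent.H212R2.KLS.PL (volume : Measure (E (k + 1))) θ h0 h1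
    (K.indicator 1) ((sh K u s).indicator 1) ((sh K u (θ * s)).indicator 1)
    (measurable_one.indicator hm) (measurable_one.indicator hm1) (measurable_one.indicator hm2)
    fun x y => by
      by_cases hx : x ∈ K
      · by_cases hy : y ∈ sh K u s
        · have hz : (1 - θ) • x + θ • y ∈ sh K u (θ * s) := by
            refine ⟨hv hx hy.1 (by linarith) h0.le (by ring), ?_⟩
            have := hv hx hy.2 (by linarith : 0 ≤ 1 - θ) h0.le (by ring)
            rw [smul_add, ← add_assoc, smul_smul] at this
            exact this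
          rw [indicator_of_mem hx, indicator_of_mem hy, indicator_of_mem hz]
          simp
        · rw [indicator_of_notMem hy, ENNReal.zero_rpow_of_pos h0, mul_zero]
          exact zero_le
      · rw [indicator_of_notMem hx, ENNReal.zero_rpow_of_pos (by linarith), zero_mul]
        exact zero_le
  rw [lintegral_indicator_one hm, lintegral_indicator_one hm1, lintegral_indicator_one hm2] at h
  exact h

section fibres

variable {F : Set ℝ}

lemma fib (hc : IsCompact F) (hv : Convex ℝ F) (s : ℝ) (hs : 0 ≤ s) :
    volume F ≤ ENNReal.ofReal s + volume {t | t ∈ F ∧ t + s ∈ F} := by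
  rcases F.eq_empty_or_nonempty with h0 | hne
  · rw [h0, measure_empty]
    exact zero_le
  have h1 := hc.sInf_mem hne
  have h2 := hc.sSup_mem hne
  have h3 : F ⊆ Icc (sInf F) (sSup F) := fun x hx => ⟨csInf_le hc.bddBelow hx,
    le_csSup hc.bddAbove hx⟩
  have h4 : F ⊆ Icc (sSup F - s) (sSup F) ∪ {t | t ∈ F ∧ t + s ∈ F} := fun x hx => by
    by_cases h : sSup F - s ≤ x
    · exact Or.inl ⟨h, (h3 hx).2⟩
    · right
      refine ⟨hx, hv.ordConnected.out h1 h2 ⟨?_, ?_⟩⟩
      · have := (h3 hx).1
        linarith
      · linarith [not_le.1 h]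
  refine (measure_mono h4).trans ((measure_union_le _ _).trans ?_)
  rw [Real.volume_Icc, sub_sub_cancel]

lemma fib2 (hc : IsCompact F) (h : ℝ) (h0 : 0 ≤ h) (hne : ∃ t ∈ F, t + h ∈ F)
    (hv : Convex ℝ F) :
    volume {t | t ∈ F ∧ t + h ∈ F} + ENNReal.ofReal h ≤ volume F := by
  obtain ⟨t0, ht0, ht1⟩ := hne
  have hn : F.Nonempty := ⟨t0, ht0⟩
  have h1 := hc.sInf_mem hn
  have h2 := hc.sSup_mem hn
  have h3 : F ⊆ Icc (sInf F) (sSup F) := fun x hx => ⟨csInf_le hc.bddBelow hx,
    le_csSup hc.bddAbove hx⟩
  have h4 : {t | t ∈ F ∧ t + h ∈ F} ⊆ Icc (sInf F) (sSup F - h) := fun t ht =>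
    ⟨(h3 ht.1).1, by linarith [(h3 ht.2).2]⟩
  have h5 : Icc (sInf F) (sSup F) ⊆ F := hv.ordConnected.out h1 h2
  have h6 : sInf F + h ≤ sSup F := by linarith [(h3 ht0).1, (h3 ht1).2]
  calc volume {t | t ∈ F ∧ t + h ∈ F} + ENNReal.ofReal h
      ≤ ENNReal.ofReal (sSup F - h - sInf F) + ENNReal.ofReal h := by
        refine add_le_add ((measure_mono h4).trans ?_) le_rfl
        rw [Real.volume_Icc]
    _ = volume (Icc (sInf F) (sSup F)) := by
        rw [← ENNReal.ofReal_add (by linarith) h0, Real.volume_Icc]
        congr 1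
        ring
    _ ≤ volume F := measure_mono h5

end fibres

variable (L : Submodule ℝ (E (k + 1))) (hL : finrank ℝ L = k) (u : E (k + 1)) (hu : ‖u‖ = 1)
  (h : ∀ y ∈ L, ⟪y, u⟫ = 0) {K : Set (E (k + 1))} (hK : IsCompact K) (hv : Convex ℝ K)

include hu hK in
lemma fib_compact (y : L) : IsCompact {t : ℝ | (y : E (k + 1)) + t • u ∈ K} := by
  have hcl : IsClosed {t : ℝ | (y : E (k + 1)) + t • u ∈ K} := hK.isClosed.preimage (by fun_prop)
  obtain ⟨R, hR⟩ := hK.isBounded.exists_norm_le
  refine (isCompact_Icc (a := -(R + ‖(y : E (k + 1))‖)) (b := R + ‖(y : E (k + 1))‖)).of_isClosed_subset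
    hcl fun t ht => ?_
  have h1 := hR _ ht
  have h2 : |t| = ‖((y : E (k + 1)) + t • u) - y‖ := by
    rw [add_sub_cancel_left, norm_smul, hu, mul_one, Real.norm_eq_abs]
  have h3 := norm_sub_le ((y : E (k + 1)) + t • u) y
  exact abs_le.1 (by linarith)

include hv in
lemma fib_convex (y : L) : Convex ℝ {t : ℝ | (y : E (k + 1)) + t • u ∈ K} := by
  intro t1 ht1 t2 ht2 p q hp hq hpq
  have := hv ht1 ht2 hp hq hpq
  show (y : E (k + 1)) + (p • t1 + q • t2) • u ∈ K
  have e : (y : E (k + 1)) + (p • t1 + q • t2) • u =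
      p • ((y : E (k + 1)) + t1 • u) + q • ((y : E (k + 1)) + t2 • u) := by
    have : (y : E (k + 1)) = (p + q) • (y : E (k + 1)) := by rw [hpq, one_smul]
    conv_lhs => rw [this]
    simp only [smul_eq_mul, add_smul, smul_add, smul_smul]
    abel
  rw [e]
  exact this

lemma fib_sh (y : L) (s : ℝ) : {t : ℝ | (y : E (k + 1)) + t • u ∈ sh K u s} =
    {t | t ∈ {t : ℝ | (y : E (k + 1)) + t • u ∈ K} ∧ t + s ∈ {t : ℝ | (y : E (k + 1)) + t • u ∈ K}} := by
  ext t
  simp only [sh, mem_ofPred_eq, add_smul, add_assoc]

include hL hu h hK hv in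
/-- the volume over a set of the projection -/
lemma vol_over {B : Set L} (hB : MeasurableSet B) (s : ℝ) (hs : 0 ≤ s) :
    volume (K ∩ L.orthogonalProjectionOnto ⁻¹' B) ≤
      ENNReal.ofReal s * volume B + volume (sh K u s) := by
  have hm : MeasurableSet (K ∩ L.orthogonalProjectionOnto ⁻¹' B) :=
    hK.measurableSet.inter (L.orthogonalProjectionOnto.continuous.measurable hB)
  have hp : ∀ (y : L) (t : ℝ), L.orthogonalProjectionOnto ((y : E (k + 1)) + t • u) = y := by
    intro y t
    have h0 : L.orthogonalProjectionOnto u = 0 :=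
      Submodule.orthogonalProjectionOnto_eq_zero_iff.2 ((Submodule.mem_orthogonal L u).2 h)
    rw [map_add, map_smul, Submodule.orthogonalProjectionOnto_mem_subspace_eq_self, h0,
      smul_zero, add_zero]
  rw [fubini L hL u hu h hm, fubini L hL u hu h (sh_compact hK u s).measurableSet]
  calc ∫⁻ y : L, volume {t : ℝ | (y : E (k + 1)) + t • u ∈ K ∩ L.orthogonalProjectionOnto ⁻¹' B}
      ≤ ∫⁻ y : L, (B.indicator (fun _ => ENNReal.ofReal s) y +
          volume {t : ℝ | (y : E (k + 1)) + t • u ∈ sh K u s}) := by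
        refine lintegral_mono fun y => ?_
        by_cases hy : y ∈ B
        · rw [indicator_of_mem hy, fib_sh]
          refine le_trans (measure_mono fun t ht => ?_)
            (fib (fib_compact L u hu hK y) (fib_convex L u hv y) s hs)
          exact ht.1
        · have : {t : ℝ | (y : E (k + 1)) + t • u ∈ K ∩ L.orthogonalProjectionOnto ⁻¹' B} = ∅ := by
            ext t
            simp only [mem_inter_iff, mem_preimage, hp, hy, and_false, mem_ofPred_eq,
              mem_empty_iff_false]
          rw [this, measure_empty]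
          exact zero_le
    _ = _ := by
        rw [lintegral_add_left (measurable_const.indicator hB), lintegral_indicator hB,
          lintegral_const, Measure.restrict_apply_univ]

include hL hu h hK hv in
/-- the derivative of the covariogram -/
lemma deriv_le {x0 : E (k + 1)} {ρ : ℝ} (hρ : 0 < ρ) (hball : Metric.closedBall x0 ρ ⊆ K)
    {s : ℝ} (hs : 0 < s) (hs' : s ≤ 2 * ρ) :
    volume (sh K u s) + ENNReal.ofReal (s * (1 - s / (2 * ρ)) ^ k) *
      volume (L.orthogonalProjectionOnto '' K) ≤ volume K := by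
  set θ : ℝ := s / (2 * ρ) with hθ
  have hθ0 : 0 < θ := by positivity
  have hθ1 : θ ≤ 1 := by
    rw [hθ, div_le_one (by positivity)]
    exact hs'
  set D : Set L := (fun y => θ • L.orthogonalProjectionOnto x0 + y) ''
    ((1 - θ) • (L.orthogonalProjectionOnto '' K)) with hD
  have hDc : IsCompact D := ((hK.image L.orthogonalProjectionOnto.continuous).smul (1 - θ)).image
    (by fun_prop)
  have hDv : volume D = ENNReal.ofReal ((1 - θ) ^ k) * volume (L.orthogonalProjectionOnto '' K) := by
    rw [hD, image_add_left, measure_preimage_add, Measure.addHaar_smul, hL,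
      abs_of_nonneg (pow_nonneg (by linarith) k)]
  rw [fubini L hL u hu h (sh_compact hK u s).measurableSet, fubini L hL u hu h hK.measurableSet,
    ENNReal.ofReal_mul hs.le, mul_assoc, ← hDv]
  calc (∫⁻ y : L, volume {t : ℝ | (y : E (k + 1)) + t • u ∈ sh K u s}) +
        ENNReal.ofReal s * volume D
      = ∫⁻ y : L, (D.indicator (fun _ => ENNReal.ofReal s) y +
          volume {t : ℝ | (y : E (k + 1)) + t • u ∈ sh K u s}) := by
        rw [lintegral_add_left (measurable_const.indicator hDc.measurableSet),
          lintegral_indicator hDc.measurableSet, lintegral_const, Measure.restrict_apply_univ,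
          add_comm]
    _ ≤ ∫⁻ y : L, volume {t : ℝ | (y : E (k + 1)) + t • u ∈ K} := by
        refine lintegral_mono fun y => ?_
        by_cases hy : y ∈ D
        · rw [indicator_of_mem hy, fib_sh]
          refine le_trans (le_of_eq (add_comm _ _))
            (fib2 (fib_compact L u hu hK y) s hs.le ?_ (fib_convex L u hv y))
          obtain ⟨_, ⟨_, ⟨x, hx, rfl⟩, rfl⟩, rfl⟩ := hy
          have a1 : x0 - ρ • u ∈ K := hball (by
            rw [mem_closedBall_iff_norm, sub_sub_cancel_left, norm_neg, norm_smul, hu, mul_one,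
              Real.norm_of_nonneg hρ.le])
          have a2 : x0 + ρ • u ∈ K := hball (by
            rw [mem_closedBall_iff_norm, add_sub_cancel_left, norm_smul, hu, mul_one,
              Real.norm_of_nonneg hρ.le])
          have e0 := proj_add L hL u hu h x
          have e1 := proj_add L hL u hu h x0
          have e2 : s = 2 * (θ * ρ) := by
            rw [hθ]
            field_simp
          refine ⟨θ * (⟪x0, u⟫ - ρ) + (1 - θ) * ⟪x, u⟫, ?_, ?_⟩
          · have a3 := hv a1 hx hθ0.le (by linarith : 0 ≤ 1 - θ) (by ring)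
            show ((θ • L.orthogonalProjectionOnto x0 +
              (1 - θ) • L.orthogonalProjectionOnto x : L) : E (k + 1)) +
                (θ * (⟪x0, u⟫ - ρ) + (1 - θ) * ⟪x, u⟫) • u ∈ K
            have a4 : ((θ • L.orthogonalProjectionOnto x0 +
              (1 - θ) • L.orthogonalProjectionOnto x : L) : E (k + 1)) +
                (θ * (⟪x0, u⟫ - ρ) + (1 - θ) * ⟪x, u⟫) • u =
                θ • (x0 - ρ • u) + (1 - θ) • x := by
              conv_rhs => rw [e0, e1]
              rw [Submodule.coe_add, Submodule.coe_smul, Submodule.coe_smul]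
              module
            rw [a4]
            exact a3
          · have a3 := hv a2 hx hθ0.le (by linarith : 0 ≤ 1 - θ) (by ring)
            show ((θ • L.orthogonalProjectionOnto x0 +
              (1 - θ) • L.orthogonalProjectionOnto x : L) : E (k + 1)) +
                (θ * (⟪x0, u⟫ - ρ) + (1 - θ) * ⟪x, u⟫ + s) • u ∈ K
            have a4 : ((θ • L.orthogonalProjectionOnto x0 +
              (1 - θ) • L.orthogonalProjectionOnto x : L) : E (k + 1)) +
                (θ * (⟪x0, u⟫ - ρ) + (1 - θ) * ⟪x, u⟫ + s) • u =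
                θ • (x0 + ρ • u) + (1 - θ) • x := by
              conv_rhs => rw [e0, e1]
              rw [Submodule.coe_add, Submodule.coe_smul, Submodule.coe_smul, e2]
              module
            rw [a4]
            exact a3
        · rw [indicator_of_notMem hy, zero_add]
          exact measure_mono fun t ht => ht.1

end Pool.Agent.H811.SP
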