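import Pool.Agent.H811.SP.Few
set_option autoImplicit false

/-!
# The entropy inequality
-/

namespace Pool.Agent.H811.SP

open MeasureTheory Module Set Filter Topology
open scoped RealInnerProductSpace ENNReal Pointwise

variable {k : ℕ} {K : Set (E (k + 1))}

lemma ent_one (hK : IsCompact K) (hv : Convex ℝ K) (hi : (interior K).Nonempty)
    {A : Set (E (k + 1))} (hA : IsCompact A) (hv' : Convex ℝ A) (hi' : (interior A).Nonempty) :
    volume (K ∩ A) ≤ ENNReal.ofReal ((sg k A / sg k K).toReal *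
      (1 + |Real.log (sg k A / sg k K).toReal|)) * volume K := by
  have hKt : volume K ≠ ⊤ := hK.measure_lt_top.ne
  have hst : sg k K ≠ ⊤ := sg_ne_top (by omega) hK
  have hs0 : sg k K ≠ 0 := sg_pos hK hv hi
  have hat : sg k A ≠ ⊤ := sg_ne_top (by omega) hA
  have ha0 : sg k A ≠ 0 := sg_pos hA hv' hi'
  have hσ0 : 0 < (sg k K).toReal := ENNReal.toReal_pos hs0 hst
  have hτ0 : 0 < (sg k A).toReal := ENNReal.toReal_pos ha0 hat
  have hα : (sg k A / sg k K).toReal = (sg k A).toReal / (sg k K).toReal := ENNReal.toReal_div _ _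
  rw [hα]
  set σ := (sg k K).toReal with hσ
  set τ := (sg k A).toReal with hτ
  have hα0 : 0 < τ / σ := div_pos hτ0 hσ0
  by_cases h1 : τ / σ < 1
  · have hl : Real.log (τ / σ) < 0 := Real.log_neg hα0 h1
    have h2 := one_body hK hv hi hA (t := -Real.log (τ / σ)) (by linarith)
    rw [← hσ] at h2
    refine h2.trans (le_of_eq ?_)
    rw [neg_neg, Real.exp_log hα0, abs_of_neg hl]
    have e1 : sg k A = ENNReal.ofReal τ := (ENNReal.ofReal_toReal hat).symm
    have e2 : ENNReal.ofReal (volume K).toReal = volume K := ENNReal.ofReal_toReal hKt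
    have hV0 : 0 ≤ (volume K).toReal := ENNReal.toReal_nonneg
    conv_lhs => rw [e1, ← e2]
    conv_rhs => rw [← e2]
    have hn : 0 ≤ -Real.log (τ / σ) := by linarith
    rw [ENNReal.toReal_ofReal hV0, ← ENNReal.ofReal_mul (by positivity),
      ← ENNReal.ofReal_mul hα0.le, ← ENNReal.ofReal_add (by positivity) (by positivity),
      ← ENNReal.ofReal_mul (by positivity)]
    congr 1
    field_simp
    ring
  · have h2 : 1 ≤ τ / σ := not_lt.1 h1
    have h3 : (1 : ℝ≥0∞) ≤ ENNReal.ofReal (τ / σ * (1 + |Real.log (τ / σ)|)) := by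
      rw [← ENNReal.ofReal_one]
      refine ENNReal.ofReal_le_ofReal ?_
      have := abs_nonneg (Real.log (τ / σ))
      nlinarith
    calc volume (K ∩ A) ≤ volume K := measure_mono inter_subset_left
      _ = 1 * volume K := (one_mul _).symm
      _ ≤ _ := mul_le_mul' h3 le_rfl

/-- **the entropy inequality** -/
lemma ent (hK : IsCompact K) (hv : Convex ℝ K) (hi : (interior K).Nonempty) {I : Type}
    [Countable I] {A : I → Set (E (k + 1))} (hA : ∀ i, IsCompact (A i))
    (hv' : ∀ i, Convex ℝ (A i)) (hi' : ∀ i, (interior (A i)).Nonempty) (hc : K ⊆ ⋃ i, A i) :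
    1 ≤ ∑' i, ENNReal.ofReal ((sg k (A i) / sg k K).toReal *
      (1 + |Real.log (sg k (A i) / sg k K).toReal|)) := by
  have hKt : volume K ≠ ⊤ := hK.measure_lt_top.ne
  have hK0 : volume K ≠ 0 := by
    obtain ⟨x0, hx0⟩ := hi
    rw [mem_interior_iff_mem_nhds] at hx0
    obtain ⟨ρ, hρ, hball⟩ := Metric.nhds_basis_closedBall.mem_iff.1 hx0
    exact (vol_pos hρ hball).ne'
  have h1 : volume K ≤ ∑' i, volume (K ∩ A i) := by
    have : K ⊆ ⋃ i, K ∩ A i := fun x hx => by
      obtain ⟨i, hi⟩ := mem_iUnion.1 (hc hx)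
      exact mem_iUnion.2 ⟨i, hx, hi⟩
    exact (measure_mono this).trans (measure_iUnion_le _)
  have h2 : volume K ≤ (∑' i, ENNReal.ofReal ((sg k (A i) / sg k K).toReal *
      (1 + |Real.log (sg k (A i) / sg k K).toReal|))) * volume K := by
    rw [← ENNReal.tsum_mul_right]
    exact h1.trans (ENNReal.tsum_le_tsum fun i => ent_one hK hv hi (hA i) (hv' i) (hi' i))
  by_contra h
  have h3 := ENNReal.mul_lt_mul_left hK0 hKt (not_le.1 h)
  rw [one_mul] at h3
  exact absurd h2 (not_le.2 h3)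

end Pool.Agent.H811.SP
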