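import Pool.Agent.H811.SP.Lift
set_option autoImplicit false

/-!
# The smallest projection of a long prism
-/

namespace Pool.Agent.H811.SP

open MeasureTheory Module Set Filter Topology
open scoped RealInnerProductSpace ENNReal Pointwise

variable {n l : ℕ}

lemma small (l : ℕ) {ε : ℝ} (h0 : 0 < ε) (h1 : ε < 1) : ∃ θ : ℝ, 0 < θ ∧ ∀ b : Fin l → ℝ, ‖b‖ < θ →
    (1 - ε) ^ 2 < (1 - Matrix.vecMulVec b b).det := by
  have hc : Continuous fun b : Fin l → ℝ => (1 - Matrix.vecMulVec b b).det := by
    refine Continuous.matrix_det ?_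
    refine continuous_const.sub ?_
    refine continuous_matrix fun i j => ?_
    simp only [Matrix.vecMulVec_apply]
    fun_prop
  have h2 : (1 - ε) ^ 2 < (1 - Matrix.vecMulVec (0 : Fin l → ℝ) 0).det := by
    rw [Matrix.vecMulVec_zero, sub_zero, Matrix.det_one]
    nlinarith
  have h3 := hc.continuousAt.eventually (lt_mem_nhds h2)
  obtain ⟨θ, hθ, h4⟩ := Metric.eventually_nhds_iff.1 h3
  exact ⟨θ, hθ, fun b hb => h4 (by rwa [dist_zero_right])⟩

lemma flat {v : Fin l → E (n + 1)} (hv : Orthonormal ℝ v) {K : Set (E n)} {ε M : ℝ}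
    (hM : 0 ≤ M)
    (hb : (1 - ε) ^ 2 < (1 - Matrix.vecMulVec (fun i => v i (Fin.last n))
      (fun i => v i (Fin.last n))).det) :
    ENNReal.ofReal (1 - ε) * sg l K ≤ volume (co v '' lift M K) := by
  set a : Fin l → E n := fun i => res (v i) with ha
  set G : Matrix (Fin l) (Fin l) ℝ := Matrix.of fun i j => ⟪a i, a j⟫ with hG
  have hG1 : G = 1 - Matrix.vecMulVec (fun i => v i (Fin.last n)) (fun i => v i (Fin.last n)) := by
    ext i j
    rw [orthonormal_iff_ite] at hv
    have h2 := hv i j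
    rw [inner_split] at h2
    simp only [hG, Matrix.of_apply, Matrix.sub_apply, Matrix.one_apply, Matrix.vecMulVec_apply]
    rw [← h2]
    ring
  rw [← hG1] at hb
  have hGd : G.det ≠ 0 := by
    have : (0 : ℝ) ≤ (1 - ε) ^ 2 := sq_nonneg _
    exact (this.trans_lt hb).ne'
  have hli : LinearIndependent ℝ a := by
    rw [Fintype.linearIndependent_iff]
    intro g hg
    have h3 : G.mulVec g = 0 := by
      funext i
      simp only [Matrix.mulVec, dotProduct, hG, Matrix.of_apply, Pi.zero_apply]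
      have h4 : ⟪a i, ∑ j, g j • a j⟫ = 0 := by rw [hg, inner_zero_right]
      rw [inner_sum] at h4
      rw [← h4]
      refine Finset.sum_congr rfl fun j _ => ?_
      rw [inner_smul_right]
      ring
    have h5 := Matrix.eq_zero_of_mulVec_eq_zero hGd h3
    exact fun i => congrFun h5 i
  set L := Submodule.span ℝ (Set.range a) with hL
  have hf : finrank ℝ L = l := by
    rw [hL, finrank_span_eq_card hli, Fintype.card_fin]
  set w := (stdOrthonormalBasis ℝ L).reindex (finCongr hf) with hw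
  set w' : Fin l → E n := fun j => (w j : E n) with hw'
  have hwo : Orthonormal ℝ w' := ⟨fun i => w.orthonormal.1 i, fun i j hij => w.orthonormal.2 hij⟩
  set R : Matrix (Fin l) (Fin l) ℝ := Matrix.of fun i j => ⟪w' j, a i⟫ with hR
  have hexp : ∀ i (y : E n), ⟪a i, y⟫ = ∑ j, R i j * ⟪w' j, y⟫ := fun i y => by
    set ai : L := ⟨a i, Submodule.subset_span ⟨i, rfl⟩⟩ with hai
    have h6 := w.sum_repr' ai
    have h7 : a i = ∑ j, ⟪w' j, a i⟫ • w' j := by
      have h8 := congrArg (Subtype.val) h6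
      rw [Submodule.coe_sum] at h8
      exact h8.symm
    conv_lhs => rw [h7]
    rw [sum_inner]
    refine Finset.sum_congr rfl fun j _ => ?_
    rw [inner_smul_left]
    rfl
  have hGR : G = R * R.transpose := by
    ext i j
    rw [Matrix.mul_apply]
    simp only [hG, Matrix.of_apply, Matrix.transpose_apply]
    rw [hexp]
    rfl
  have hdet : 1 - ε ≤ |R.det| := by
    rw [hGR, Matrix.det_mul, Matrix.det_transpose, ← sq] at hb
    rw [← sq_abs R.det] at hb
    exact (abs_lt_of_sq_lt_sq' (by simpa using hb) (abs_nonneg _)).2.le |>.trans' (le_refl _)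
  have himg : co a '' K = Matrix.toLin' R '' (co w' '' K) := by
    rw [image_image]
    refine image_congr fun y _ => ?_
    funext i
    rw [Matrix.toLin'_apply]
    exact hexp i y
  have hsub : co a '' K ⊆ co v '' lift M K := by
    rintro _ ⟨y, hy, rfl⟩
    refine ⟨ext y 0, ⟨?_, ?_, ?_⟩, ?_⟩
    · rw [res_ext]
      exact hy
    · rw [ext_last]
    · rw [ext_last]
      exact hM
    · funext i
      show ⟪v i, ext y 0⟫ = ⟪a i, y⟫
      rw [inner_split, res_ext, ext_last, mul_zero, add_zero]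
  refine le_trans ?_ (measure_mono hsub)
  rw [himg, Measure.addHaar_image_linearMap, LinearMap.det_toLin']
  exact mul_le_mul' (ENNReal.ofReal_le_ofReal hdet) (iInf₂_le w' hwo)

lemma sg_ne_top (h : l ≤ n) {K : Set (E n)} (hK : IsCompact K) : sg l K ≠ ⊤ := by
  have hv : Orthonormal ℝ fun i : Fin l => EuclideanSpace.basisFun (Fin n) ℝ (Fin.castLE h i) :=
    (EuclideanSpace.basisFun (Fin n) ℝ).orthonormal.comp _ (Fin.castLE_injective h)
  have hc : Continuous (co fun i : Fin l => EuclideanSpace.basisFun (Fin n) ℝ (Fin.castLE h i)) := by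
    unfold co
    fun_prop
  exact ((iInf₂_le _ hv).trans_lt (hK.image hc).measure_lt_top).ne

lemma low_lift (h : l ≤ n) {K : Set (E n)} (hK : IsCompact K) (hi : (interior K).Nonempty)
    {ε : ℝ} (h0 : 0 < ε) (h1 : ε < 1) :
    ∃ M : ℝ, 0 < M ∧ ENNReal.ofReal (1 - ε) * sg l K ≤ sg l (lift M K) := by
  obtain ⟨θ, hθ, hdet⟩ := small l h0 h1
  obtain ⟨x0, hx0⟩ := hi
  rw [mem_interior_iff_mem_nhds] at hx0
  obtain ⟨r, hr, hball⟩ := Metric.nhds_basis_closedBall.mem_iff.1 hx0
  set s : ℝ := r / (l + 1) with hs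
  have hs0 : 0 < s := by positivity
  have hsl : l * s ≤ r := by
    rw [hs, ← mul_div_assoc, div_le_iff₀ (by positivity)]
    nlinarith
  have hw : volume (Metric.ball (0 : Fin l → ℝ) s) ≠ 0 := (Metric.measure_ball_pos volume _ hs0).ne'
  obtain ⟨N, hN⟩ := ENNReal.exists_nat_mul_gt hw (sg_ne_top h hK)
  refine ⟨2 * r + N * (2 * s / θ), by positivity, le_iInf₂ fun v hv => ?_⟩
  by_cases hb : θ ≤ ‖fun i => v i (Fin.last n)‖
  · have h2 := many hv hr hball hθ hb hs0 hsl N le_rfl
    refine le_trans ?_ h2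
    refine le_trans ?_ hN.le
    calc ENNReal.ofReal (1 - ε) * sg l K ≤ 1 * sg l K := by
          refine mul_le_mul' ?_ le_rfl
          rw [← ENNReal.ofReal_one]
          exact ENNReal.ofReal_le_ofReal (by linarith)
      _ = sg l K := one_mul _
  · exact flat hv (by positivity) (hdet _ (not_le.1 hb))

end Pool.Agent.H811.SP
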