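import Pool.Agent.H811.SP.Tail
import Pool.Agent.H811.SP.Mono
set_option autoImplicit false

/-!
# Coverings by few bodies
-/

namespace Pool.Agent.H811.SP

open MeasureTheory Module Set Filter Topology
open scoped RealInnerProductSpace ENNReal Pointwise

variable {k : ℕ} {K : Set (E (k + 1))}

lemma sg_le (L : Submodule ℝ (E (k + 1))) (h : finrank ℝ L = k) (A : Set (E (k + 1))) :
    sg k A ≤ volume (L.orthogonalProjectionOnto '' A) := by
  obtain ⟨v, hv, e⟩ := area_le L h A
  exact (iInf₂_le v hv).trans (le_of_eq e)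

lemma sg_pos (hK : IsCompact K) (hv : Convex ℝ K) (hi : (interior K).Nonempty) : sg k K ≠ 0 := by
  obtain ⟨x0, hx0⟩ := hi
  rw [mem_interior_iff_mem_nhds] at hx0
  obtain ⟨ρ, hρ, hball⟩ := Metric.nhds_basis_closedBall.mem_iff.1 hx0
  have hV := vol_pos hρ hball
  obtain ⟨R, hR⟩ := hK.isBounded.exists_norm_le
  have hR0 : 0 ≤ R := (norm_nonneg _).trans (hR x0 (hball (Metric.mem_closedBall_self hρ.le)))
  set s : ℝ := 2 * R + 1 with hs
  have hs0 : 0 < s := by positivity
  have key : (ENNReal.ofReal s)⁻¹ * volume K ≤ sg k K := by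
    refine le_iInf₂ fun w hw => ?_
    obtain ⟨L, b, hL, hb⟩ := exists_span w hw
    obtain ⟨u, hu, h⟩ := exists_unit L hL
    have e : co w = co fun i => (b i : E (k + 1)) := by
      funext x i
      show ⟪w i, x⟫ = ⟪(b i : E (k + 1)), x⟫
      rw [hb]
    rw [e, area_eq]
    have hB : MeasurableSet (L.orthogonalProjectionOnto '' K) :=
      (hK.image L.orthogonalProjectionOnto.continuous).measurableSet
    have h1 := vol_over L hL u hu h hK hv hB s hs0.le
    have h2 : sh K u s = ∅ := by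
      ext x
      simp only [sh, mem_ofPred_eq, mem_empty_iff_false, iff_false, not_and]
      intro hx hx'
      have h3 := hR _ hx
      have h4 := hR _ hx'
      have h5 := norm_sub_le (x + s • u) x
      rw [add_sub_cancel_left, norm_smul, hu, mul_one, Real.norm_of_nonneg hs0.le] at h5
      linarith
    rw [h2, measure_empty, add_zero] at h1
    have h60 : K ⊆ K ∩ L.orthogonalProjectionOnto ⁻¹' (L.orthogonalProjectionOnto '' K) :=
      fun x hx => ⟨hx, x, hx, rfl⟩
    have h6 : volume K ≤ ENNReal.ofReal s * volume (L.orthogonalProjectionOnto '' K) :=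
      (measure_mono h60).trans h1
    calc (ENNReal.ofReal s)⁻¹ * volume K
        ≤ (ENNReal.ofReal s)⁻¹ * (ENNReal.ofReal s * volume (L.orthogonalProjectionOnto '' K)) :=
          mul_le_mul_right h6 _
      _ = volume (L.orthogonalProjectionOnto '' K) := by
          rw [← mul_assoc, ENNReal.inv_mul_cancel (by simpa using hs0) ENNReal.ofReal_ne_top,
            one_mul]
  intro h0
  rw [h0] at key
  have h7 : (ENNReal.ofReal s)⁻¹ * volume K = 0 := le_antisymm key zero_le
  rcases mul_eq_zero.1 h7 with h8 | h8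
  · exact absurd (ENNReal.inv_eq_zero.1 h8) ENNReal.ofReal_ne_top
  · exact hV.ne' h8

/-- one body -/
lemma one_body (hK : IsCompact K) (hv : Convex ℝ K) (hi : (interior K).Nonempty)
    {A : Set (E (k + 1))} (hA : IsCompact A) {t : ℝ} (ht : 0 < t) :
    volume (K ∩ A) ≤ ENNReal.ofReal (t * (volume K).toReal / (sg k K).toReal) * sg k A +
      ENNReal.ofReal (Real.exp (-t)) * volume K := by
  obtain ⟨x0, hx0⟩ := hi
  have hi' : (interior K).Nonempty := ⟨x0, hx0⟩
  rw [mem_interior_iff_mem_nhds] at hx0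
  obtain ⟨ρ, hρ, hball⟩ := Metric.nhds_basis_closedBall.mem_iff.1 hx0
  have hKt : volume K ≠ ⊤ := hK.measure_lt_top.ne
  have hst : sg k K ≠ ⊤ := sg_ne_top (by omega) hK
  have hv0 : 0 < (volume K).toReal := ENNReal.toReal_pos (vol_pos hρ hball).ne' hKt
  have hσ0 : 0 < (sg k K).toReal := ENNReal.toReal_pos (sg_pos hK hv hi') hst
  set σ := (sg k K).toReal with hσ
  set V := (volume K).toReal with hV
  set s : ℝ := t * V / σ with hs
  have hs0 : 0 < s := by positivity
  have ha : ENNReal.ofReal s ≠ 0 := by simpa using hs0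
  have key : ∀ w : Fin k → E (k + 1), Orthonormal ℝ w →
      volume (K ∩ A) ≤ ENNReal.ofReal s * volume (co w '' A) +
        ENNReal.ofReal (Real.exp (-t)) * volume K := by
    intro w hw
    obtain ⟨L, b, hL, hb⟩ := exists_span w hw
    obtain ⟨u, hu, h⟩ := exists_unit L hL
    have e : co w = co fun i => (b i : E (k + 1)) := by
      funext x i
      show ⟪w i, x⟫ = ⟪(b i : E (k + 1)), x⟫
      rw [hb]
    rw [e, area_eq]
    have h1 := part L hL u hu h hK hv hρ hball hA hs0 (σ := σ) (by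
      rw [hσ, ENNReal.ofReal_toReal hst]
      exact sg_le L hL K)
    have e2 : s * σ / V = t := by
      rw [hs]
      field_simp
    rw [← hV, e2] at h1
    exact h1
  unfold sg
  simp_rw [ENNReal.mul_iInf_of_ne ha ENNReal.ofReal_ne_top]
  rw [ENNReal.iInf_add]
  refine le_iInf fun w => ?_
  by_cases hw : Orthonormal ℝ w
  · rw [iInf_pos hw]
    exact key w hw
  · rw [iInf_neg hw, top_add]
    exact le_top

/-- **coverings by few bodies** -/
lemma few (hK : IsCompact K) (hv : Convex ℝ K) (hi : (interior K).Nonempty) {m : ℕ}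
    {A : Fin m → Set (E (k + 1))} (hA : ∀ i, IsCompact (A i)) (hc : K ⊆ ⋃ i, A i) {t : ℝ}
    (ht : 0 < t) :
    ENNReal.ofReal ((1 - m * Real.exp (-t)) / t) ≤ (∑ i, sg k (A i)) / sg k K := by
  have hKt : volume K ≠ ⊤ := hK.measure_lt_top.ne
  have hst : sg k K ≠ ⊤ := sg_ne_top (by omega) hK
  have hs0 : sg k K ≠ 0 := sg_pos hK hv hi
  have hv0 : 0 < (volume K).toReal := by
    obtain ⟨x0, hx0⟩ := hi
    rw [mem_interior_iff_mem_nhds] at hx0
    obtain ⟨ρ, hρ, hball⟩ := Metric.nhds_basis_closedBall.mem_iff.1 hx0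
    exact ENNReal.toReal_pos (vol_pos hρ hball).ne' hKt
  have hσ0 : 0 < (sg k K).toReal := ENNReal.toReal_pos hs0 hst
  have hSt : ∑ i, sg k (A i) ≠ ⊤ := by
    rw [ENNReal.sum_ne_top]
    exact fun i _ => sg_ne_top (by omega) (hA i)
  have h1 : volume K ≤ ∑ i, volume (K ∩ A i) := by
    have : K ⊆ ⋃ i, K ∩ A i := fun x hx => by
      obtain ⟨i, hi⟩ := mem_iUnion.1 (hc hx)
      exact mem_iUnion.2 ⟨i, hx, hi⟩
    refine (measure_mono this).trans ((measure_iUnion_le _).trans ?_)
    rw [tsum_fintype]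
  have h2 : volume K ≤ ENNReal.ofReal (t * (volume K).toReal / (sg k K).toReal) *
      (∑ i, sg k (A i)) + m * (ENNReal.ofReal (Real.exp (-t)) * volume K) := by
    refine h1.trans ((Finset.sum_le_sum fun i _ => one_body hK hv hi (hA i) ht).trans ?_)
    rw [Finset.sum_add_distrib, ← Finset.mul_sum, Finset.sum_const, Finset.card_univ,
      Fintype.card_fin, nsmul_eq_mul]
  have h3 := ENNReal.toReal_mono (by
    refine ENNReal.add_ne_top.2 ⟨ENNReal.mul_ne_top ENNReal.ofReal_ne_top hSt,
      ENNReal.mul_ne_top (ENNReal.natCast_ne_top m) (ENNReal.mul_ne_top ENNReal.ofReal_ne_top hKt)⟩) h2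
  rw [ENNReal.toReal_add (ENNReal.mul_ne_top ENNReal.ofReal_ne_top hSt)
    (ENNReal.mul_ne_top (ENNReal.natCast_ne_top m) (ENNReal.mul_ne_top ENNReal.ofReal_ne_top hKt)),
    ENNReal.toReal_mul, ENNReal.toReal_mul, ENNReal.toReal_mul,
    ENNReal.toReal_ofReal (by positivity), ENNReal.toReal_ofReal (Real.exp_pos _).le,
    ENNReal.toReal_natCast] at h3
  rw [← ENNReal.ofReal_toReal hSt, ← ENNReal.ofReal_toReal hst, ← ENNReal.ofReal_div_of_pos hσ0]
  refine ENNReal.ofReal_le_ofReal ?_
  set V := (volume K).toReal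
  set σ := (sg k K).toReal
  set S := (∑ i, sg k (A i)).toReal
  rw [div_le_div_iff₀ ht hσ0]
  have h4 : V * (σ * (1 - m * Real.exp (-t))) ≤ V * (t * S) := by
    have h5 : t * V / σ * S * σ = V * (t * S) := by
      field_simp
    have h6 := mul_le_mul_of_nonneg_right h3 hσ0.le
    rw [add_mul, h5] at h6
    linarith
  have h7 := le_of_mul_le_mul_left h4 hv0
  linarith

end Pool.Agent.H811.SP
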