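import Pool.Agent.H811.SP.Bod
set_option autoImplicit false

/-!
# The final inequality
-/

namespace Pool.Agent.H811.SP

open MeasureTheory Module Set Filter Topology
open scoped RealInnerProductSpace ENNReal Pointwise

variable {k : ℕ}

/-- the bound -/
noncomputable def bd (k : ℕ) (r : ℝ) : ℝ :=
  1 / ((k + 1) * r) + 1 / (((k + 1) / 2 : ℕ) * (1 - r) ^ (k + 1)) + 2 * √2 / (k + 1)

lemma B_top : volume (B k) ≠ ⊤ := B_compact.measure_lt_top.ne

lemma final (hk : 1 ≤ k) {r : ℝ} (h0 : 0 < r) (h1 : r < 1) (L : Submodule ℝ (E (k + 1)))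
    (hL : finrank ℝ L = k) :
    (∑ i, volume ((ℝ ∙ u i)ᗮ.orthogonalProjectionOnto '' P (k := k) i)) +
      volume ((ℝ ∙ (EuclideanSpace.single (Fin.last k) (1 : ℝ) :
        E (k + 1)))ᗮ.orthogonalProjectionOnto '' P' k) ≤
      ENNReal.ofReal (bd k r) * volume (L.orthogonalProjectionOnto '' B k) := by
  have hkp : (0 : ℝ) < k + 1 := by positivity
  have h2 : (0 : ℝ) < √2 := by positivity
  have h22 : √2 * √2 = 2 := Real.mul_self_sqrt (by norm_num)
  have hm : (0 : ℝ) < ((k + 1) / 2 : ℕ) := by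
    have : 0 < (k + 1) / 2 := by omega
    exact_mod_cast this
  have hr1 : 0 < (1 - r) ^ (k + 1) := pow_pos (by linarith) _
  set m : ℝ := (((k + 1) / 2 : ℕ) : ℝ) with hmd
  have hQ : volume (Q k r) ≤ ENNReal.ofReal (1 / (m * (1 - r) ^ (k + 1))) * volume (B k) := by
    have h3 := Q_le (k := k) h0 h1
    have h4 : (((k + 1) / 2 : ℕ) : ℝ≥0∞) * ENNReal.ofReal ((1 - r) ^ (k + 1)) =
        ENNReal.ofReal (m * (1 - r) ^ (k + 1)) := by
      rw [ENNReal.ofReal_mul hm.le, hmd, ENNReal.ofReal_natCast]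
    rw [h4] at h3
    have h5 : 0 < m * (1 - r) ^ (k + 1) := mul_pos hm hr1
    rw [one_div, ENNReal.ofReal_inv_of_pos h5]
    exact inv_le (by simpa using h5) ENNReal.ofReal_ne_top h3
  have hB : ENNReal.ofReal ((k + 1) / √2) * volume (B k) ≤
      volume (L.orthogonalProjectionOnto '' B k) := by
    have h3 := B_low (k := k) L hL
    calc ENNReal.ofReal ((k + 1) / √2) * volume (B k)
        ≤ ENNReal.ofReal ((k + 1) / √2) * (ENNReal.ofReal (√2 / (k + 1)) *
          volume (L.orthogonalProjectionOnto '' B k)) := mul_le_mul_right h3 _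
      _ = volume (L.orthogonalProjectionOnto '' B k) := by
        rw [← mul_assoc, ← ENNReal.ofReal_mul (by positivity)]
        rw [show (k + 1) / √2 * (√2 / (k + 1)) = 1 by field_simp]
        rw [ENNReal.ofReal_one, one_mul]
  have hb1 : 0 ≤ 1 / (√2 * r) := by positivity
  have hb2 : 0 ≤ (k + 1) / √2 * (1 / (m * (1 - r) ^ (k + 1))) := by positivity
  have hbd : 0 ≤ bd k r := by
    unfold bd
    rw [← hmd]
    positivity
  calc _ ≤ (ENNReal.ofReal (1 / (√2 * r)) * volume (B k) +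
        ENNReal.ofReal ((k + 1) / √2) * volume (Q k r)) + ENNReal.ofReal 2 * volume (B k) :=
        add_le_add (total h0) P'_area
    _ ≤ (ENNReal.ofReal (1 / (√2 * r)) * volume (B k) +
        ENNReal.ofReal ((k + 1) / √2) * (ENNReal.ofReal (1 / (m * (1 - r) ^ (k + 1))) *
          volume (B k))) + ENNReal.ofReal 2 * volume (B k) :=
        add_le_add (add_le_add le_rfl (mul_le_mul_right hQ _)) le_rfl
    _ = ENNReal.ofReal (bd k r) * (ENNReal.ofReal ((k + 1) / √2) * volume (B k)) := by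
        rw [← mul_assoc, ← mul_assoc, ← ENNReal.ofReal_mul (by positivity),
          ← ENNReal.ofReal_mul hbd, ← add_mul, ← add_mul, ← ENNReal.ofReal_add hb1 hb2,
          ← ENNReal.ofReal_add (add_nonneg hb1 hb2) (by norm_num)]
        congr 2
        unfold bd
        rw [← hmd]
        field_simp
    _ ≤ _ := mul_le_mul_right hB _

lemma asym (δ : ℝ) (hδ : 0 < δ) : ∀ᶠ k : ℕ in atTop, 1 ≤ k ∧ ∃ r : ℝ, 0 < r ∧ r < 1 ∧
    bd k r ≤ (1 + δ) / Real.log ((k + 1 : ℕ) : ℝ) := by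
  set η : ℝ := δ / (2 * (1 + δ)) with hη
  have hη0 : 0 < η := by positivity
  have hη1 : η < 1 / 2 := by
    rw [hη, div_lt_iff₀ (by positivity)]
    linarith
  have hη2 : 1 / (1 - η) < 1 + δ := by
    rw [div_lt_iff₀ (by linarith)]
    have : η * (1 + δ) = δ / 2 := by
      rw [hη]
      field_simp
    nlinarith
  set ε : ℝ := (1 + δ) - 1 / (1 - η) with hε
  have hε0 : 0 < ε := by linarith
  have hn : Tendsto (fun k : ℕ => (((k + 1 : ℕ) : ℝ))) atTop atTop :=
    tendsto_natCast_atTop_atTop.comp (tendsto_add_atTop_nat 1)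
  have E1 : ∀ᶠ x : ℝ in atTop, 1 ≤ Real.log x :=
    Real.tendsto_log_atTop.eventually_ge_atTop 1
  have E2 : ∀ᶠ x : ℝ in atTop, Real.log x ^ 2 ≤ x / 2 := by
    have h := (Real.isLittleO_pow_log_id_atTop (n := 2)).tendsto_div_nhds_zero
    filter_upwards [h.eventually (gt_mem_nhds (show (0 : ℝ) < 1 / 2 by norm_num)),
      eventually_gt_atTop 0] with x hx hx0
    have hx' : Real.log x ^ 2 / x < 1 / 2 := hx
    rw [div_lt_iff₀ hx0] at hx'
    linarith
  have E3 : ∀ᶠ x : ℝ in atTop, Real.log x * (3 * Real.exp 1 * x ^ (-η) + 2 * √2 / x) ≤ ε := by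
    have h1 := (isLittleO_log_rpow_atTop hη0).tendsto_div_nhds_zero
    have h2 := (isLittleO_log_rpow_atTop (show (0 : ℝ) < 1 by norm_num)).tendsto_div_nhds_zero
    have h3 := (h1.const_mul (3 * Real.exp 1)).add (h2.const_mul (2 * √2))
    rw [mul_zero, mul_zero, add_zero] at h3
    filter_upwards [h3.eventually (gt_mem_nhds hε0), eventually_gt_atTop 0] with x hx hx0
    refine le_trans (le_of_eq ?_) hx.le
    rw [Real.rpow_neg hx0.le, Real.rpow_one]
    ring
  filter_upwards [hn.eventually E1, hn.eventually E2, hn.eventually E3, eventually_ge_atTop 1]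
    with k h1 h2 h3 hk
  refine ⟨hk, ?_⟩
  have hcast : ((k + 1 : ℕ) : ℝ) = (k : ℝ) + 1 := by push_cast; ring
  rw [hcast] at h1 h2 h3 ⊢
  set n : ℝ := (k : ℝ) + 1 with hnd
  have hn0 : 0 < n := by positivity
  set ℓ := Real.log n with hℓ
  set R : ℝ := (1 - η) * ℓ with hR
  have hR0 : 0 < R := mul_pos (by linarith) (by linarith)
  have hRl : R ≤ ℓ := by
    rw [hR]
    nlinarith
  have hr0 : 0 < R / n := div_pos hR0 hn0
  have hr1 : R / n ≤ 1 / 2 := by
    rw [div_le_iff₀ hn0]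
    nlinarith
  have hRr : R * (R / n) ≤ 1 / 2 := by
    rw [← mul_div_assoc, div_le_iff₀ hn0]
    nlinarith
  refine ⟨R / n, hr0, by linarith, ?_⟩
  have hm : n / 3 ≤ (((k + 1) / 2 : ℕ) : ℝ) := by
    have : k + 1 ≤ 3 * ((k + 1) / 2) := by omega
    have h : ((k + 1 : ℕ) : ℝ) ≤ ((3 * ((k + 1) / 2) : ℕ) : ℝ) := by exact_mod_cast this
    rw [hcast, Nat.cast_mul] at h
    push_cast at h ⊢
    linarith
  have hm0 : (0 : ℝ) < (((k + 1) / 2 : ℕ) : ℝ) := by linarith [div_pos hn0 (by norm_num : (0:ℝ) < 3)]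
  have hpow : Real.exp (-(R + 1)) ≤ (1 - R / n) ^ (k + 1) := by
    have hp : 0 < 1 - R / n := by linarith
    have h4 := Real.one_sub_inv_le_log_of_pos hp
    have h5 : -(R + 1) ≤ (k + 1 : ℕ) * Real.log (1 - R / n) := by
      have h6' : ∀ z : ℝ, 0 < 1 - z → 1 - (1 - z)⁻¹ = -(z / (1 - z)) := fun z hz => by
        have := hz.ne'
        field_simp
        ring
      have h6 := h6' (R / n) hp
      have h7 : (R / n) / (1 - R / n) * n ≤ R + 1 := by
        rw [div_mul_eq_mul_div, div_le_iff₀ hp, div_mul_cancel₀ _ hn0.ne']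
        nlinarith
      rw [hcast]
      rw [h6] at h4
      nlinarith
    calc Real.exp (-(R + 1)) ≤ Real.exp ((k + 1 : ℕ) * Real.log (1 - R / n)) :=
          Real.exp_le_exp.2 h5
      _ = (1 - R / n) ^ (k + 1) := by
          rw [Real.exp_nat_mul, Real.exp_log hp]
  have hsec : 1 / ((((k + 1) / 2 : ℕ) : ℝ) * (1 - R / n) ^ (k + 1)) ≤
      3 * Real.exp 1 * n ^ (-η) := by
    have h8 : n / 3 * Real.exp (-(R + 1)) ≤
        (((k + 1) / 2 : ℕ) : ℝ) * (1 - R / n) ^ (k + 1) :=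
      mul_le_mul hm hpow (Real.exp_pos _).le hm0.le
    have h9 : 0 < n / 3 * Real.exp (-(R + 1)) := by positivity
    refine (one_div_le_one_div_of_le h9 h8).trans (le_of_eq ?_)
    have h10 : Real.exp (-(R + 1)) = (Real.exp 1)⁻¹ * (n⁻¹ * n ^ η) := by
      rw [Real.rpow_def_of_pos hn0, ← Real.exp_log hn0, ← Real.exp_neg, ← Real.exp_neg,
        ← Real.exp_add, ← Real.exp_add, Real.log_exp]
      congr 1
      rw [hR, hℓ]
      ring
    rw [h10, Real.rpow_neg hn0.le]
    have : 0 < n ^ η := Real.rpow_pos_of_pos hn0 _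
    have := Real.exp_pos 1
    field_simp
  have hfirst : 1 / (n * (R / n)) = 1 / (1 - η) / ℓ := by
    rw [mul_div_cancel₀ _ hn0.ne', hR, div_div]
  unfold bd
  rw [← hnd, hfirst, le_div_iff₀ (by linarith)]
  have hl0 : 0 < ℓ := by linarith
  calc (1 / (1 - η) / ℓ + 1 / ((((k + 1) / 2 : ℕ) : ℝ) * (1 - R / n) ^ (k + 1)) +
        2 * √2 / n) * ℓ
      ≤ (1 / (1 - η) / ℓ + 3 * Real.exp 1 * n ^ (-η) + 2 * √2 / n) * ℓ :=
        mul_le_mul_of_nonneg_right (by linarith) hl0.le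
    _ = 1 / (1 - η) + ℓ * (3 * Real.exp 1 * n ^ (-η) + 2 * √2 / n) := by
        have : 1 / (1 - η) / ℓ * ℓ = 1 / (1 - η) := div_mul_cancel₀ _ hl0.ne'
        linear_combination this
    _ ≤ 1 + δ := by linarith

end Pool.Agent.H811.SP
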