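import Mathlib
set_option autoImplicit false

/-!
# Fubini for the orthogonal projection along a line
-/

namespace Pool.Agent.H811.SP

open MeasureTheory Module
open scoped RealInnerProductSpace ENNReal

/-- Euclidean `n`-space -/
abbrev E (n : ℕ) : Type := EuclideanSpace ℝ (Fin n)

variable {k : ℕ}

/-- the isometry `(y, t) ↦ y + t u` -/
noncomputable def li (L : Submodule ℝ (E (k + 1))) (u : E (k + 1)) (hu : ‖u‖ = 1)
    (h : ∀ y ∈ L, ⟪y, u⟫ = 0) : WithLp 2 (L × ℝ) →ₗᵢ[ℝ] E (k + 1) where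
  toFun p := (p.fst : E (k + 1)) + p.snd • u
  map_add' p q := by
    simp only [WithLp.add_fst, WithLp.add_snd, Submodule.coe_add, add_smul]
    abel
  map_smul' c p := by
    simp only [WithLp.smul_fst, WithLp.smul_snd, Submodule.coe_smul, smul_add, smul_smul,
      RingHom.id_apply, smul_eq_mul]
  norm_map' p := by
    have h1 : ‖(p.fst : E (k + 1)) + p.snd • u‖ ^ 2 = ‖p‖ ^ 2 := by
      rw [@norm_add_sq_real, inner_smul_right, h _ p.fst.2, norm_smul, hu,
        WithLp.prod_norm_sq_eq_of_L2]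
      simp [sq_abs]
    exact (sq_eq_sq₀ (norm_nonneg _) (norm_nonneg _)).1 h1

lemma mp (L : Submodule ℝ (E (k + 1))) (hL : finrank ℝ L = k) (u : E (k + 1)) (hu : ‖u‖ = 1)
    (h : ∀ y ∈ L, ⟪y, u⟫ = 0) :
    MeasurePreserving (fun p : L × ℝ => (p.1 : E (k + 1)) + p.2 • u) volume volume := by
  have hf : finrank ℝ (WithLp 2 (L × ℝ)) = finrank ℝ (E (k + 1)) := by
    rw [(WithLp.linearEquiv 2 ℝ (L × ℝ)).finrank_eq, finrank_prod, hL, finrank_self,
      finrank_euclideanSpace_fin]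
  have e := ((li L u hu h).toLinearIsometryEquiv hf).measurePreserving
  exact e.comp (WithLp.volume_preserving_toLp L ℝ)

lemma fubini (L : Submodule ℝ (E (k + 1))) (hL : finrank ℝ L = k) (u : E (k + 1)) (hu : ‖u‖ = 1)
    (h : ∀ y ∈ L, ⟪y, u⟫ = 0) {P : Set (E (k + 1))} (hP : MeasurableSet P) :
    volume P = ∫⁻ y : L, volume {t : ℝ | (y : E (k + 1)) + t • u ∈ P} := by
  rw [← (mp L hL u hu h).measure_preimage hP.nullMeasurableSet]
  exact Measure.prod_apply ((mp L hL u hu h).measurable hP)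

lemma exists_unit (L : Submodule ℝ (E (k + 1))) (hL : finrank ℝ L = k) :
    ∃ u : E (k + 1), ‖u‖ = 1 ∧ ∀ y ∈ L, ⟪y, u⟫ = 0 := by
  have h1 : L ≠ ⊤ := by
    rintro rfl
    rw [finrank_top, finrank_euclideanSpace_fin] at hL
    omega
  have h2 : Lᗮ ≠ ⊥ := fun h => h1 ((Submodule.orthogonal_eq_bot_iff).1 h)
  obtain ⟨v, hv, hv0⟩ := Submodule.exists_mem_ne_zero_of_ne_bot h2
  refine ⟨(‖v‖⁻¹ : ℝ) • v, ?_, fun y hy => ?_⟩
  · rw [norm_smul, norm_inv, norm_norm]
    exact inv_mul_cancel₀ (norm_ne_zero_iff.2 hv0)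
  · rw [inner_smul_right, Submodule.inner_right_of_mem_orthogonal hy hv, mul_zero]

/-- projecting along `u`: `x = π x + ⟨x, u⟩ u` -/
lemma proj_add (L : Submodule ℝ (E (k + 1))) (hL : finrank ℝ L = k) (u : E (k + 1))
    (hu : ‖u‖ = 1) (h : ∀ y ∈ L, ⟪y, u⟫ = 0) (x : E (k + 1)) :
    x = (L.orthogonalProjectionOnto x : E (k + 1)) + ⟪x, u⟫ • u := by
  have e := ((li L u hu h).toLinearIsometryEquiv (by
    rw [(WithLp.linearEquiv 2 ℝ (L × ℝ)).finrank_eq, finrank_prod, hL, finrank_self,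
      finrank_euclideanSpace_fin])).surjective x
  obtain ⟨p, hp⟩ := e
  have hp' : (p.fst : E (k + 1)) + p.snd • u = x := hp
  have h1 : L.orthogonalProjectionOnto x = p.fst := by
    have h0 : L.orthogonalProjectionOnto u = 0 :=
      Submodule.orthogonalProjectionOnto_eq_zero_iff.2 ((Submodule.mem_orthogonal L u).2 h)
    rw [← hp', map_add, map_smul, Submodule.orthogonalProjectionOnto_mem_subspace_eq_self, h0,
      smul_zero, add_zero]
  have h2 : ⟪x, u⟫ = p.snd := by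
    rw [← hp', inner_add_left, h _ p.fst.2, inner_smul_left, real_inner_self_eq_norm_sq, hu]
    simp
  rw [h1, h2, hp']

end Pool.Agent.H811.SP
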