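import Pool.Agent.H811.SP.Br
set_option autoImplicit false

/-!
# Prisms over convex bodies
-/

namespace Pool.Agent.H811.SP

open MeasureTheory Module Set Filter Topology
open scoped RealInnerProductSpace ENNReal Pointwise

variable {n l : ℕ}

/-- the first coordinates -/
def res (x : E (n + 1)) : E n := WithLp.toLp 2 fun j => x j.castSucc

/-- one more coordinate -/
def ext (y : E n) (t : ℝ) : E (n + 1) := WithLp.toLp 2 (Fin.snoc (α := fun _ => ℝ) y t)

lemma res_apply (x : E (n + 1)) (j : Fin n) : res x j = x j.castSucc := rfl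

lemma ext_last (y : E n) (t : ℝ) : ext y t (Fin.last n) = t := by
  simp [ext]

lemma ext_castSucc (y : E n) (t : ℝ) (j : Fin n) : ext y t j.castSucc = y j := by
  simp [ext]

lemma res_ext (y : E n) (t : ℝ) : res (ext y t) = y := by
  ext j
  rw [res_apply, ext_castSucc]

lemma res_cont : Continuous (res : E (n + 1) → E n) := by
  unfold res
  fun_prop

lemma res_add (x y : E (n + 1)) : res (x + y) = res x + res y := by
  ext j
  simp [res_apply]

lemma res_smul (c : ℝ) (x : E (n + 1)) : res (c • x) = c • res x := by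
  ext j
  simp [res_apply]

lemma inner_split (x y : E (n + 1)) :
    ⟪x, y⟫ = ⟪res x, res y⟫ + x (Fin.last n) * y (Fin.last n) := by
  rw [PiLp.inner_apply, PiLp.inner_apply, Fin.sum_univ_castSucc]
  simp only [res_apply]
  congr 1
  simp [mul_comm]

lemma norm_split (x : E (n + 1)) : ‖x‖ ^ 2 = ‖res x‖ ^ 2 + x (Fin.last n) ^ 2 := by
  have := inner_split x x
  rw [real_inner_self_eq_norm_sq, real_inner_self_eq_norm_sq] at this
  rw [this]
  ring

lemma last_cont : Continuous fun x : E (n + 1) => x (Fin.last n) := by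
  fun_prop

/-- the prism -/
def lift (M : ℝ) (K : Set (E n)) : Set (E (n + 1)) :=
  {x | res x ∈ K ∧ 0 ≤ x (Fin.last n) ∧ x (Fin.last n) ≤ M}

lemma lift_compact {M : ℝ} {K : Set (E n)} (h : IsCompact K) : IsCompact (lift M K) := by
  refine Metric.isCompact_of_isClosed_isBounded ?_ ?_
  · exact (h.isClosed.preimage res_cont).inter ((isClosed_le continuous_const last_cont).inter
      (isClosed_le last_cont continuous_const))
  · obtain ⟨R, hR⟩ := h.isBounded.exists_norm_le
    refine (Metric.isBounded_closedBall (x := (0 : E (n + 1))) (r := |R| + |M|)).subset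
      fun x hx => ?_
    rw [mem_closedBall_zero_iff]
    have h1 := hR _ hx.1
    have h2 := norm_split x
    have h3 : ‖res x‖ ≤ |R| := h1.trans (le_abs_self R)
    have h4 : x (Fin.last n) ≤ |M| := hx.2.2.trans (le_abs_self M)
    refine abs_le_of_sq_le_sq' ?_ (by positivity) |>.2
    have h5 := norm_nonneg (res x)
    have h6 := hx.2.1
    nlinarith [abs_nonneg R, abs_nonneg M, mul_nonneg (abs_nonneg R) (abs_nonneg M)]

lemma lift_convex {M : ℝ} {K : Set (E n)} (h : Convex ℝ K) : Convex ℝ (lift M K) := by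
  intro x hx y hy a b ha hb hab
  refine ⟨?_, ?_, ?_⟩
  · rw [res_add, res_smul, res_smul]
    exact h hx.1 hy.1 ha hb hab
  · simp only [PiLp.add_apply, PiLp.smul_apply, smul_eq_mul]
    have h1 := hx.2.1
    have h2 := hy.2.1
    positivity
  · simp only [PiLp.add_apply, PiLp.smul_apply, smul_eq_mul]
    have h1 := mul_le_mul_of_nonneg_left hx.2.2 ha
    have h2 := mul_le_mul_of_nonneg_left hy.2.2 hb
    have h3 : a * M + b * M = M := by rw [← add_mul, hab, one_mul]
    linarith

lemma lift_interior {M : ℝ} (hM : 0 < M) {K : Set (E n)} (h : (interior K).Nonempty) :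
    (interior (lift M K)).Nonempty := by
  obtain ⟨y, hy⟩ := h
  refine ⟨ext y (M / 2), ?_⟩
  rw [mem_interior]
  refine ⟨{x | res x ∈ interior K ∧ 0 < x (Fin.last n) ∧ x (Fin.last n) < M}, ?_, ?_, ?_⟩
  · exact fun x hx => ⟨interior_subset hx.1, hx.2.1.le, hx.2.2.le⟩
  · exact (isOpen_interior.preimage res_cont).inter
      ((isOpen_lt continuous_const last_cont).inter (isOpen_lt last_cont continuous_const))
  · refine ⟨?_, ?_, ?_⟩
    · rw [res_ext]
      exact hy
    · rw [ext_last]
      positivity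
    · rw [ext_last]
      linarith

lemma lift_cover {I : Type} {M : ℝ} {K : Set (E n)} {A : I → Set (E n)} (h : K ⊆ ⋃ i, A i) :
    lift M K ⊆ ⋃ i, lift M (A i) := fun x hx => by
  obtain ⟨i, hi⟩ := mem_iUnion.1 (h hx.1)
  exact mem_iUnion.2 ⟨i, hi, hx.2⟩

/-- the smallest volume of a projection -/
noncomputable def sg (l : ℕ) (K : Set (E n)) : ℝ≥0∞ :=
  ⨅ (v : Fin l → E n) (_ : Orthonormal ℝ v), volume (co v '' K)

lemma sg_lift_le (M : ℝ) (A : Set (E n)) : sg l (lift M A) ≤ sg l A := by
  refine le_iInf₂ fun v hv => ?_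
  have h1 : ∀ i (x : E (n + 1)), ⟪ext (v i) 0, x⟫ = ⟪v i, res x⟫ := fun i x => by
    rw [inner_split, res_ext, ext_last, zero_mul, add_zero]
  have ho : Orthonormal ℝ fun i => ext (v i) 0 := by
    rw [orthonormal_iff_ite] at hv ⊢
    intro i j
    rw [h1, res_ext]
    exact hv i j
  refine (iInf₂_le _ ho).trans (measure_mono ?_)
  rintro _ ⟨x, hx, rfl⟩
  refine ⟨res x, hx.1, ?_⟩
  funext i
  exact (h1 i x).symm

/-- many disjoint balls -/
lemma many {v : Fin l → E (n + 1)} (hv : Orthonormal ℝ v) {K : Set (E n)} {x0 : E n} {r θ M : ℝ}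
    (hr : 0 < r) (hK : Metric.closedBall x0 r ⊆ K) (hθ : 0 < θ)
    (hb : θ ≤ ‖fun i => v i (Fin.last n)‖) {s : ℝ} (hs : 0 < s) (hsl : l * s ≤ r) (N : ℕ)
    (hM : 2 * r + N * (2 * s / θ) ≤ M) :
    N * volume (Metric.ball (0 : Fin l → ℝ) s) ≤ volume (co v '' lift M K) := by
  set b : Fin l → ℝ := fun i => v i (Fin.last n) with hbd
  set c : Fin N → Fin l → ℝ := fun j => co v (ext x0 (r + j * (2 * s / θ))) with hc
  have hcd : ∀ i j : Fin N, c i - c j = ((i : ℝ) - j) • ((2 * s / θ) • b) := fun i j => by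
    funext m
    simp only [hc, co, Pi.sub_apply, Pi.smul_apply, smul_eq_mul, hbd]
    rw [← inner_sub_right, inner_split]
    have e1 : res (ext x0 (r + i * (2 * s / θ)) - ext x0 (r + j * (2 * s / θ))) = 0 := by
      ext m
      simp [res_apply, ext_castSucc]
    rw [e1, inner_zero_right, zero_add, PiLp.sub_apply, ext_last, ext_last]
    ring
  have hdis : Pairwise (Function.onFun Disjoint fun j => Metric.ball (c j) s) := fun i j hij => by
    refine Metric.ball_disjoint_ball ?_
    rw [dist_eq_norm, hcd, norm_smul, norm_smul, Real.norm_eq_abs, Real.norm_eq_abs,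
      abs_of_pos (by positivity : 0 < 2 * s / θ)]
    have h1 : (1 : ℝ) ≤ |(i : ℝ) - j| := by
      have h2 : ((i : ℕ) : ℤ) - ((j : ℕ) : ℤ) ≠ 0 := fun h => hij (Fin.ext (by omega))
      have h3 := Int.one_le_abs h2
      have h4 : ((1 : ℤ) : ℝ) ≤ ((|((i : ℕ) : ℤ) - ((j : ℕ) : ℤ)| : ℤ) : ℝ) := by exact_mod_cast h3
      push_cast at h4
      exact h4
    have h5 : 2 * s ≤ 2 * s / θ * ‖b‖ := by
      rw [div_mul_eq_mul_div, le_div_iff₀ hθ]
      nlinarith
    nlinarith
  have hsub : (⋃ j, Metric.ball (c j) s) ⊆ co v '' lift M K := by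
    refine iUnion_subset fun j y hy => ?_
    set w : Fin l → ℝ := y - c j with hw
    have hwn : ∀ i, |w i| ≤ s := fun i => by
      have h1 := norm_le_pi_norm w i
      have h2 : ‖w‖ < s := by
        rw [hw, ← dist_eq_norm]
        exact hy
      rw [Real.norm_eq_abs] at h1
      linarith
    set z : E (n + 1) := ∑ i, w i • v i with hz
    have hzn : ‖z‖ ≤ r := by
      calc ‖z‖ ≤ ∑ i, ‖w i • v i‖ := norm_sum_le _ _
        _ ≤ ∑ _ : Fin l, s := Finset.sum_le_sum fun i _ => by
            rw [norm_smul, hv.1 i, mul_one, Real.norm_eq_abs]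
            exact hwn i
        _ = l * s := by rw [Finset.sum_const, Finset.card_univ, Fintype.card_fin, nsmul_eq_mul]
        _ ≤ r := hsl
    have h2 := norm_split z
    have h3 : ‖res z‖ ≤ r := by
      refine (abs_le_of_sq_le_sq' (b := r) ?_ hr.le).2
      nlinarith [sq_nonneg (z (Fin.last n)), norm_nonneg z]
    have h4 : |z (Fin.last n)| ≤ r := by
      refine abs_le_of_sq_le_sq ?_ hr.le
      nlinarith [sq_nonneg ‖res z‖, norm_nonneg z]
    obtain ⟨h5, h6⟩ := abs_le.1 h4
    have hj0 : 0 ≤ (j : ℝ) * (2 * s / θ) := by positivity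
    have hj1 : (j : ℝ) * (2 * s / θ) ≤ N * (2 * s / θ) := by
      refine mul_le_mul_of_nonneg_right ?_ (by positivity)
      exact_mod_cast j.2.le
    refine ⟨ext x0 (r + j * (2 * s / θ)) + z, ⟨hK ?_, ?_, ?_⟩, ?_⟩
    · rw [res_add, res_ext, mem_closedBall_iff_norm, add_sub_cancel_left]
      exact h3
    · rw [PiLp.add_apply, ext_last]
      linarith
    · rw [PiLp.add_apply, ext_last]
      linarith
    · funext i
      have h7 : y i = c j i + w i := by
        rw [hw]
        simp
      rw [h7]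
      show ⟪v i, ext x0 (r + j * (2 * s / θ)) + z⟫ = ⟪v i, ext x0 (r + j * (2 * s / θ))⟫ + w i
      rw [inner_add_right, hz, hv.inner_right_fintype]
  calc (N : ℝ≥0∞) * volume (Metric.ball (0 : Fin l → ℝ) s)
      = ∑ j : Fin N, volume (Metric.ball (c j) s) := by
        have : ∀ j : Fin N, volume (Metric.ball (c j) s) =
            volume (Metric.ball (0 : Fin l → ℝ) s) := fun j =>
          Measure.addHaar_ball_center volume (c j) s
        simp only [this]
        rw [Finset.sum_const, Finset.card_univ, Fintype.card_fin, nsmul_eq_mul]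
    _ = volume (⋃ j, Metric.ball (c j) s) := by
        rw [measure_iUnion hdis fun j => measurableSet_ball, tsum_fintype]
    _ ≤ _ := measure_mono hsub

end Pool.Agent.H811.SP
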