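import Pool.Agent.H811.SP.Fub
set_option autoImplicit false

/-!
# Upper and lower bounds of the volume by the area of a projection
-/

namespace Pool.Agent.H811.SP

open MeasureTheory Module Set
open scoped RealInnerProductSpace ENNReal Pointwise

variable {k : ℕ}

lemma measurable_len {P : Set (E (k + 1))} (hP : MeasurableSet P)
    (L : Submodule ℝ (E (k + 1))) (hL : finrank ℝ L = k) (u : E (k + 1)) (hu : ‖u‖ = 1)
    (h : ∀ y ∈ L, ⟪y, u⟫ = 0) :
    Measurable fun y : L => volume {t : ℝ | (y : E (k + 1)) + t • u ∈ P} :=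
  measurable_measure_prodMk_left ((mp L hL u hu h).measurable hP)

/-- long chords: an upper bound of the area of the projection -/
lemma cost (L : Submodule ℝ (E (k + 1))) (hL : finrank ℝ L = k) (u : E (k + 1)) (hu : ‖u‖ = 1)
    (h : ∀ y ∈ L, ⟪y, u⟫ = 0) {P : Set (E (k + 1))} (hP : IsCompact P) {r : ℝ≥0∞}
    (hr : ∀ x ∈ P, r ≤ volume {t : ℝ | x + t • u ∈ P}) :
    r * volume (L.orthogonalProjectionOnto '' P) ≤ volume P := by
  rw [fubini L hL u hu h hP.measurableSet]
  have hm : MeasurableSet (L.orthogonalProjectionOnto '' P) :=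
    (hP.image L.orthogonalProjectionOnto.continuous).measurableSet
  calc r * volume (L.orthogonalProjectionOnto '' P)
      = ∫⁻ _ in L.orthogonalProjectionOnto '' P, r := by rw [lintegral_const]; simp
    _ ≤ ∫⁻ y in L.orthogonalProjectionOnto '' P,
          volume {t : ℝ | (y : E (k + 1)) + t • u ∈ P} := by
        refine setLIntegral_mono' hm fun y hy => ?_
        obtain ⟨x, hx, rfl⟩ := hy
        refine (hr x hx).trans (le_of_eq ?_)
        have e : {t : ℝ | x + t • u ∈ P} = (fun t => ⟪x, u⟫ + t) ⁻¹'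
            {t : ℝ | (L.orthogonalProjectionOnto x : E (k + 1)) + t • u ∈ P} := by
          ext t
          simp only [mem_ofPred_eq, mem_preimage]
          rw [add_smul, ← add_assoc, ← proj_add L hL u hu h x]
        rw [e, measure_preimage_add]
    _ ≤ _ := setLIntegral_le_lintegral _ _

lemma interval {F : Set ℝ} (hc : IsCompact F) (hv : Convex ℝ F) {s : ℝ} (hs : 0 < s)
    (h : ENNReal.ofReal s ≤ volume F) : ∃ t ∈ F, t + s ∈ F := by
  have hne : F.Nonempty := by
    by_contra h0
    rw [not_nonempty_iff_eq_empty.1 h0, measure_empty] at h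
    exact absurd (ENNReal.ofReal_eq_zero.1 (le_antisymm h zero_le)) (not_le.2 hs)
  have h1 := hc.sInf_mem hne
  have h2 := hc.sSup_mem hne
  have h3 : F ⊆ Icc (sInf F) (sSup F) := fun x hx => ⟨csInf_le hc.bddBelow hx,
    le_csSup hc.bddAbove hx⟩
  have h4 := h.trans (measure_mono h3)
  rw [Real.volume_Icc] at h4
  have h5 : s ≤ sSup F - sInf F := by
    by_contra h6
    have h7 := (ENNReal.ofReal_lt_ofReal_iff hs).2 (not_le.1 h6)
    exact absurd h4 (not_le.2 h7)
  refine ⟨sInf F, h1, ?_⟩
  exact hv.ordConnected.out h1 h2 ⟨by linarith, by linarith⟩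

lemma cone_integral (a : ℝ) (ha : 0 < a) :
    ∫⁻ s in Ioi (0 : ℝ), (if s ≤ a then ENNReal.ofReal ((1 - s / a) ^ k) else 0) =
      ENNReal.ofReal (a / (k + 1)) := by
  have e1 : ∫⁻ s in Ioi (0 : ℝ), (if s ≤ a then ENNReal.ofReal ((1 - s / a) ^ k) else 0) =
      ∫⁻ s in Ioc 0 a, ENNReal.ofReal ((1 - s / a) ^ k) := by
    rw [← lintegral_indicator measurableSet_Ioi, ← lintegral_indicator measurableSet_Ioc]
    congr 1
    funext s
    by_cases h1 : 0 < s <;> by_cases h2 : s ≤ a <;> simp [indicator, h1, h2]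
  have hnn : ∀ s ∈ Ioc (0 : ℝ) a, 0 ≤ (1 - s / a) ^ k := fun s hs => by
    apply pow_nonneg
    rw [sub_nonneg, div_le_one ha]
    exact hs.2
  rw [e1, ← ofReal_integral_eq_lintegral_ofReal]
  · congr 1
    rw [← intervalIntegral.integral_of_le ha.le]
    have e2 : ∫ s in (0 : ℝ)..a, (1 - s / a) ^ k = a * ∫ s in (0 : ℝ)..1, (1 - s) ^ k := by
      have := intervalIntegral.integral_comp_div (a := 0) (b := a) (fun s => (1 - s) ^ k) ha.ne'
      rw [this, zero_div, div_self ha.ne', smul_eq_mul]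
    rw [e2]
    have e3 : ∫ s in (0 : ℝ)..1, (1 - s) ^ k = 1 / (k + 1) := by
      have := intervalIntegral.integral_comp_sub_left (a := 0) (b := 1) (fun s => s ^ k) (1 : ℝ)
      rw [this, sub_self, sub_zero, _root_.integral_pow]
      simp
    rw [e3]
    ring
  · exact (Continuous.integrableOn_Icc (by fun_prop)).mono_set Ioc_subset_Icc_self
  · exact (ae_restrict_iff' measurableSet_Ioc).2 (ae_of_all _ hnn)

/-- the cone inequality -/
lemma low (L : Submodule ℝ (E (k + 1))) (hL : finrank ℝ L = k) (u : E (k + 1)) (hu : ‖u‖ = 1)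
    (h : ∀ y ∈ L, ⟪y, u⟫ = 0) {K : Set (E (k + 1))} (hK : IsCompact K) (hv : Convex ℝ K)
    {a : ℝ} (ha : 0 < a)
    (hs : ∀ s : ℝ, 0 < s → (s ≤ a → ∃ z : E (k + 1), ∀ x ∈ K, x + s • u ∈ K →
      ∃ y ∈ K, x = z + (1 - s / a) • y) ∧ (a < s → ∀ x ∈ K, x + s • u ∉ K)) :
    volume K ≤ ENNReal.ofReal (a / (k + 1)) * volume (L.orthogonalProjectionOnto '' K) := by
  rw [fubini L hL u hu h hK.measurableSet]
  set F : L → Set ℝ := fun y => {t : ℝ | (y : E (k + 1)) + t • u ∈ K} with hF
  have hFc : ∀ y, IsCompact (F y) := fun y => by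
    have hcl : IsClosed (F y) := hK.isClosed.preimage (by fun_prop)
    obtain ⟨R, hR⟩ := hK.isBounded.exists_norm_le
    refine (isCompact_Icc (a := -(R + ‖(y : E (k + 1))‖)) (b := R + ‖(y : E (k + 1))‖)).of_isClosed_subset
      hcl fun t ht => ?_
    have h1 := hR _ ht
    have h2 : |t| = ‖((y : E (k + 1)) + t • u) - y‖ := by
      rw [add_sub_cancel_left, norm_smul, hu, mul_one, Real.norm_eq_abs]
    have h3 := norm_sub_le ((y : E (k + 1)) + t • u) y
    exact abs_le.1 (by linarith)
  have hFv : ∀ y, Convex ℝ (F y) := fun y t1 ht1 t2 ht2 p q hp hq hpq => by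
    have := hv ht1 ht2 hp hq hpq
    show (y : E (k + 1)) + (p • t1 + q • t2) • u ∈ K
    have e : (y : E (k + 1)) + (p • t1 + q • t2) • u =
        p • ((y : E (k + 1)) + t1 • u) + q • ((y : E (k + 1)) + t2 • u) := by
      have : (y : E (k + 1)) = (p + q) • (y : E (k + 1)) := by rw [hpq, one_smul]
      conv_lhs => rw [this]
      simp only [smul_eq_mul, add_smul, smul_add, smul_smul]
      abel
    rw [e]
    exact this
  have hfin : ∀ y, volume (F y) ≠ ⊤ := fun y => (hFc y).measure_lt_top.ne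
  have hmeas : Measurable fun y => volume (F y) := measurable_len hK.measurableSet L hL u hu h
  have e1 : ∫⁻ y : L, volume (F y) = ∫⁻ y : L, ENNReal.ofReal ((volume (F y)).toReal) :=
    lintegral_congr fun y => (ENNReal.ofReal_toReal (hfin y)).symm
  rw [e1, lintegral_eq_lintegral_meas_le volume (ae_of_all _ fun y => ENNReal.toReal_nonneg)
    hmeas.ennreal_toReal.aemeasurable, ← cone_integral (k := k) a ha, ← lintegral_mul_const']
  · refine setLIntegral_mono' measurableSet_Ioi fun s hs0 => ?_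
    have hs0' : (0 : ℝ) < s := hs0
    have key : {y : L | s ≤ (volume (F y)).toReal} ⊆
        L.orthogonalProjectionOnto '' {x | x ∈ K ∧ x + s • u ∈ K} := fun y hy => by
      have h1 : ENNReal.ofReal s ≤ volume (F y) := (ENNReal.ofReal_le_iff_le_toReal (hfin y)).2 hy
      obtain ⟨t, ht1, ht2⟩ := interval (hFc y) (hFv y) hs0' h1
      refine ⟨(y : E (k + 1)) + t • u, ⟨ht1, ?_⟩, ?_⟩
      · have : (y : E (k + 1)) + (t + s) • u ∈ K := ht2
        rwa [add_smul, ← add_assoc] at this
      · have h0 : L.orthogonalProjectionOnto u = 0 :=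
          Submodule.orthogonalProjectionOnto_eq_zero_iff.2 ((Submodule.mem_orthogonal L u).2 h)
        rw [map_add, map_smul, Submodule.orthogonalProjectionOnto_mem_subspace_eq_self, h0,
          smul_zero, add_zero]
    refine (measure_mono key).trans ?_
    by_cases hsa : s ≤ a
    · rw [if_pos hsa]
      obtain ⟨z, hz⟩ := (hs s hs0').1 hsa
      have h2 : L.orthogonalProjectionOnto '' {x | x ∈ K ∧ x + s • u ∈ K} ⊆
          (fun y => L.orthogonalProjectionOnto z + y) ''
            ((1 - s / a) • (L.orthogonalProjectionOnto '' K)) := by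
        rintro _ ⟨x, ⟨hx1, hx2⟩, rfl⟩
        obtain ⟨y, hy, hxy⟩ := hz x hx1 hx2
        refine ⟨(1 - s / a) • L.orthogonalProjectionOnto y, ⟨_, ⟨y, hy, rfl⟩, rfl⟩, ?_⟩
        simp only
        rw [hxy, map_add, map_smul]
      refine (measure_mono h2).trans (le_of_eq ?_)
      have h3 : (0 : ℝ) ≤ 1 - s / a := by
        rw [sub_nonneg, div_le_one ha]
        exact hsa
      rw [image_add_left, measure_preimage_add, Measure.addHaar_smul, hL,
        abs_of_nonneg (pow_nonneg h3 k)]
    · rw [if_neg hsa, zero_mul]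
      have h4 : {x | x ∈ K ∧ x + s • u ∈ K} = ∅ := by
        ext x
        simp only [mem_ofPred_eq, mem_empty_iff_false, iff_false, not_and]
        exact (hs s hs0').2 (not_le.1 hsa) x
      rw [h4, image_empty, measure_empty]
  · exact (hK.image L.orthogonalProjectionOnto.continuous).measure_lt_top.ne

end Pool.Agent.H811.SP
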