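import Pool.Agent.H811.SP.Simp
set_option autoImplicit false

/-!
# The pieces of the simplex
-/

namespace Pool.Agent.H811.SP

open MeasureTheory Module Set
open scoped RealInnerProductSpace ENNReal Pointwise

variable {k : ℕ}

/-- the first index of a pair -/
def p (i : Fin ((k + 1) / 2)) : Fin (k + 1) := ⟨2 * i, by omega⟩

/-- the second index of a pair -/
def q (i : Fin ((k + 1) / 2)) : Fin (k + 1) := ⟨2 * i + 1, by omega⟩

lemma p_inj {i j : Fin ((k + 1) / 2)} : p i = p j ↔ i = j := by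
  simp only [p, Fin.ext_iff]
  omega

lemma q_inj {i j : Fin ((k + 1) / 2)} : q i = q j ↔ i = j := by
  simp only [q, Fin.ext_iff]
  omega

lemma p_ne {i j : Fin ((k + 1) / 2)} : p i ≠ q j := by
  simp only [p, q, ne_eq, Fin.ext_iff]
  omega

/-- the sum of a pair of coordinates -/
def S (i : Fin ((k + 1) / 2)) (x : E (k + 1)) : ℝ := x (p i) + x (q i)

lemma S_cont (i : Fin ((k + 1) / 2)) : Continuous (S i : E (k + 1) → ℝ) := by
  unfold S
  fun_prop

/-- the direction of a pair -/
noncomputable def u (i : Fin ((k + 1) / 2)) : E (k + 1) :=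
  (√2)⁻¹ • (EuclideanSpace.single (p i) (1 : ℝ) - EuclideanSpace.single (q i) (1 : ℝ))

lemma u_apply (i : Fin ((k + 1) / 2)) (j : Fin (k + 1)) :
    u i j = (√2)⁻¹ * ((if j = p i then 1 else 0) - (if j = q i then 1 else 0)) := by
  simp [u]

lemma u_norm (i : Fin ((k + 1) / 2)) : ‖u i‖ = 1 := by
  have h1 : ‖EuclideanSpace.single (p i) (1 : ℝ) - EuclideanSpace.single (q i) (1 : ℝ)‖ = √2 := by
    have h2 : ‖EuclideanSpace.single (p i) (1 : ℝ) - EuclideanSpace.single (q i) (1 : ℝ)‖ ^ 2 = 2 := by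
      rw [@norm_sub_sq_real, EuclideanSpace.inner_single_left]
      simp [p_ne]
      norm_num
    rw [← h2, Real.sqrt_sq (norm_nonneg _)]
  rw [u, norm_smul, h1, norm_inv, Real.norm_of_nonneg (Real.sqrt_nonneg 2)]
  exact inv_mul_cancel₀ (by positivity)

lemma S_line (i j : Fin ((k + 1) / 2)) (x : E (k + 1)) (t : ℝ) : S j (x + t • u i) = S j x := by
  simp only [S, PiLp.add_apply, PiLp.smul_apply, smul_eq_mul, u_apply, p_inj, q_inj]
  rw [if_neg (p_ne (i := j) (j := i)), if_neg (Ne.symm (p_ne (i := i) (j := j)))]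
  ring

lemma sum_line (i : Fin ((k + 1) / 2)) (x : E (k + 1)) (t : ℝ) :
    ∑ j, (x + t • u i) j = ∑ j, x j := by
  simp only [PiLp.add_apply, PiLp.smul_apply, smul_eq_mul, u_apply]
  rw [Finset.sum_add_distrib, ← Finset.mul_sum, ← Finset.mul_sum, Finset.sum_sub_distrib]
  simp

lemma inv_le {c v w : ℝ≥0∞} (h0 : c ≠ 0) (h1 : c ≠ ⊤) (h : c * v ≤ w) : v ≤ c⁻¹ * w :=
  calc v = c⁻¹ * (c * v) := by rw [← mul_assoc, ENNReal.inv_mul_cancel h0 h1, one_mul]
    _ ≤ c⁻¹ * w := mul_le_mul_right h _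

/-- projections along a pair -/
lemma costP (i : Fin ((k + 1) / 2)) {C : Set (E (k + 1))} (hC : IsClosed C)
    (hinv : ∀ x ∈ C, ∀ t : ℝ, x + t • u i ∈ C) {r : ℝ} (hr : 0 < r)
    (h : ∀ x ∈ B k ∩ C, r ≤ S i x) :
    volume ((ℝ ∙ u i)ᗮ.orthogonalProjectionOnto '' (B k ∩ C)) ≤
      ENNReal.ofReal (1 / (√2 * r)) * volume (B k ∩ C) := by
  have h2 : (0 : ℝ) < √2 := by positivity
  have hL : finrank ℝ (ℝ ∙ u i)ᗮ = k := by
    have : Fact (finrank ℝ (E (k + 1)) = k + 1) := ⟨finrank_euclideanSpace_fin⟩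
    refine Submodule.finrank_orthogonal_span_singleton ?_
    rw [← norm_ne_zero_iff, u_norm]
    exact one_ne_zero
  have ho : ∀ y ∈ (ℝ ∙ u i)ᗮ, ⟪y, u i⟫ = 0 := fun y hy =>
    (Submodule.mem_orthogonal_singleton_iff_inner_left.1 hy)
  have hc := cost (ℝ ∙ u i)ᗮ hL (u i) (u_norm i) ho (B_compact.inter_right hC)
    (r := ENNReal.ofReal (√2 * r)) fun x hx => by
      have h3 : Icc (-(√2 * x (p i))) (√2 * x (q i)) ⊆ {t : ℝ | x + t • u i ∈ B k ∩ C} := by
        intro t ht
        refine ⟨⟨fun j => ?_, ?_⟩, hinv x hx.2 t⟩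
        · simp only [PiLp.add_apply, PiLp.smul_apply, smul_eq_mul, u_apply]
          have h4 := hx.1.1 j
          have e : (√2)⁻¹ * √2 = 1 := inv_mul_cancel₀ h2.ne'
          have e2 : 0 < (√2)⁻¹ := by positivity
          by_cases hj : j = p i
          · subst hj
            rw [if_pos rfl, if_neg p_ne]
            have := mul_le_mul_of_nonneg_left ht.1 e2.le
            nlinarith
          · by_cases hj' : j = q i
            · subst hj'
              rw [if_neg hj, if_pos rfl]
              have := mul_le_mul_of_nonneg_left ht.2 e2.le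
              nlinarith
            · rw [if_neg hj, if_neg hj']
              simpa using h4
        · rw [sum_line]
          exact hx.1.2
      refine le_trans ?_ (measure_mono h3)
      rw [Real.volume_Icc]
      refine ENNReal.ofReal_le_ofReal ?_
      have := h x hx
      unfold S at this
      nlinarith
  have h5 : (0 : ℝ) < √2 * r := by positivity
  rw [one_div, ENNReal.ofReal_inv_of_pos h5]
  exact inv_le (by simpa using h5) ENNReal.ofReal_ne_top hc

/-- the last direction -/
lemma costL {r : ℝ} (hr : 0 < r) {C : Set (E (k + 1))} (hC : IsClosed C)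
    (hinv : ∀ x ∈ C, ∀ t : ℝ, x + t • EuclideanSpace.single (Fin.last k) (1 : ℝ) ∈ C)
    (h : ∀ x ∈ B k ∩ C, r ≤ 1 - (∑ j, x j - x (Fin.last k))) :
    volume ((ℝ ∙ (EuclideanSpace.single (Fin.last k) (1 : ℝ) : E (k + 1)))ᗮ.orthogonalProjectionOnto ''
      (B k ∩ C)) ≤ ENNReal.ofReal (1 / r) * volume (B k ∩ C) := by
  set e : E (k + 1) := EuclideanSpace.single (Fin.last k) (1 : ℝ) with he
  have hn : ‖e‖ = 1 := by simp [he]
  have hL : finrank ℝ (ℝ ∙ e)ᗮ = k := by
    have : Fact (finrank ℝ (E (k + 1)) = k + 1) := ⟨finrank_euclideanSpace_fin⟩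
    refine Submodule.finrank_orthogonal_span_singleton ?_
    rw [← norm_ne_zero_iff, hn]
    exact one_ne_zero
  have ho : ∀ y ∈ (ℝ ∙ e)ᗮ, ⟪y, e⟫ = 0 := fun y hy =>
    (Submodule.mem_orthogonal_singleton_iff_inner_left.1 hy)
  have ea : ∀ j, e j = if j = Fin.last k then 1 else 0 := fun j => by
    simp [he]
  have hc := cost (ℝ ∙ e)ᗮ hL e hn ho (B_compact.inter_right hC)
    (r := ENNReal.ofReal r) fun x hx => by
      have h3 : Icc (-(x (Fin.last k))) (1 - ∑ j, x j) ⊆ {t : ℝ | x + t • e ∈ B k ∩ C} := by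
        intro t ht
        refine ⟨⟨fun j => ?_, ?_⟩, hinv x hx.2 t⟩
        · simp only [PiLp.add_apply, PiLp.smul_apply, smul_eq_mul, ea]
          have h4 := hx.1.1 j
          by_cases hj : j = Fin.last k
          · subst hj
            rw [if_pos rfl]
            linarith [ht.1]
          · rw [if_neg hj]
            linarith
        · simp only [PiLp.add_apply, PiLp.smul_apply, smul_eq_mul, ea]
          rw [Finset.sum_add_distrib, ← Finset.mul_sum]
          simp only [Finset.sum_ite_eq', Finset.mem_univ, if_true]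
          linarith [ht.2]
      refine le_trans ?_ (measure_mono h3)
      rw [Real.volume_Icc]
      refine ENNReal.ofReal_le_ofReal ?_
      have := h x hx
      linarith
  rw [one_div, ENNReal.ofReal_inv_of_pos hr]
  exact inv_le (by simpa using hr) ENNReal.ofReal_ne_top hc

end Pool.Agent.H811.SP
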