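import Pool.Agent.H811.SP.Low
set_option autoImplicit false

/-!
# The simplex
-/

namespace Pool.Agent.H811.SP

open MeasureTheory Module Set
open scoped RealInnerProductSpace ENNReal Pointwise

variable {k : ℕ}

/-- the simplex with the vertices `0` and the unit vectors -/
def B (k : ℕ) : Set (E (k + 1)) := {x | (∀ j, 0 ≤ x j) ∧ ∑ j, x j ≤ 1}

lemma B_closed : IsClosed (B k) := by
  have e : B k = (⋂ j, {x : E (k + 1) | 0 ≤ x j}) ∩ {x | ∑ j, x j ≤ 1} := by
    ext x
    simp [B]
  rw [e]
  refine IsClosed.inter (isClosed_iInter fun j => isClosed_le (by fun_prop) (by fun_prop))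
    (isClosed_le (by fun_prop) (by fun_prop))

lemma B_le_one {x : E (k + 1)} (hx : x ∈ B k) (j : Fin (k + 1)) : x j ≤ 1 :=
  (Finset.single_le_sum (fun i _ => hx.1 i) (Finset.mem_univ j)).trans hx.2

lemma B_compact : IsCompact (B k) := by
  refine Metric.isCompact_of_isClosed_isBounded B_closed ?_
  refine (Metric.isBounded_closedBall (x := (0 : E (k + 1))) (r := 1)).subset fun x hx => ?_
  rw [mem_closedBall_zero_iff, EuclideanSpace.norm_eq]
  rw [Real.sqrt_le_one]
  refine le_trans (Finset.sum_le_sum fun j _ => ?_) hx.2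
  rw [Real.norm_eq_abs, sq_abs]
  have h1 := hx.1 j
  have h2 := B_le_one hx j
  nlinarith

lemma B_convex : Convex ℝ (B k) := fun x hx y hy p q hp hq hpq => by
  refine ⟨fun j => ?_, ?_⟩
  · have h1 := hx.1 j
    have h2 := hy.1 j
    show 0 ≤ (p • x + q • y) j
    simp only [PiLp.add_apply, PiLp.smul_apply, smul_eq_mul]
    positivity
  · show ∑ j, (p • x + q • y) j ≤ 1
    simp only [PiLp.add_apply, PiLp.smul_apply, smul_eq_mul]
    rw [Finset.sum_add_distrib, ← Finset.mul_sum, ← Finset.mul_sum]
    nlinarith [hx.2, hy.2]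

lemma unit_le (u : E (k + 1)) (hu : ‖u‖ = 1) :
    1 ≤ √2 * (∑ j, max (-u j) 0 + max (∑ j, u j) 0) := by
  set W := ∑ j, u j
  set q := ∑ j, max (-u j) 0
  set g := q + max W 0
  have hq : 0 ≤ q := Finset.sum_nonneg fun j _ => le_max_right _ _
  have hg : 0 ≤ g := add_nonneg hq (le_max_right _ _)
  have h1 : ∀ j, |u j| = u j + 2 * max (-u j) 0 := fun j => by
    rcases le_total 0 (u j) with h | h
    · rw [abs_of_nonneg h, max_eq_right (by linarith)]
      ring
    · rw [abs_of_nonpos h, max_eq_left (by linarith)]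
      ring
  have h2 : ∑ j, |u j| = W + 2 * q := by
    simp_rw [h1]
    rw [Finset.sum_add_distrib, ← Finset.mul_sum]
  have h3 : ∀ j, |u j| ≤ g := fun j => by
    have hj : max (-u j) 0 ≤ q :=
      Finset.single_le_sum (f := fun j => max (-u j) 0) (fun i _ => le_max_right _ _)
        (Finset.mem_univ j)
    have hp : ∑ j, max (u j) 0 = W + q := by
      rw [← Finset.sum_add_distrib]
      refine Finset.sum_congr rfl fun j _ => ?_
      rcases le_total 0 (u j) with h | h
      · rw [max_eq_left h, max_eq_right (by linarith)]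
        ring
      · rw [max_eq_right h, max_eq_left (by linarith)]
        ring
    have hj' : max (u j) 0 ≤ W + q := by
      rw [← hp]
      exact Finset.single_le_sum (f := fun j => max (u j) 0) (fun i _ => le_max_right _ _)
        (Finset.mem_univ j)
    rcases le_total 0 (u j) with h | h
    · rw [abs_of_nonneg h]
      have := le_max_left (u j) 0
      have := le_max_left W 0
      show _ ≤ q + max W 0
      linarith
    · rw [abs_of_nonpos h]
      have := le_max_left (-u j) 0
      have := le_max_right W 0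
      show _ ≤ q + max W 0
      linarith
  have h4 : (1 : ℝ) ≤ g * (2 * g) := by
    have e : (1 : ℝ) = ∑ j, |u j| * |u j| := by
      have := EuclideanSpace.real_norm_sq_eq u
      rw [hu] at this
      simp only [abs_mul_abs_self]
      rw [← one_pow 2, this]
      exact Finset.sum_congr rfl fun j _ => sq _
    rw [e]
    calc ∑ j, |u j| * |u j| ≤ ∑ j, g * |u j| :=
          Finset.sum_le_sum fun j _ => mul_le_mul_of_nonneg_right (h3 j) (abs_nonneg _)
      _ = g * (W + 2 * q) := by rw [← Finset.mul_sum, h2]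
      _ ≤ g * (2 * g) := by
          refine mul_le_mul_of_nonneg_left ?_ hg
          have := le_max_left W 0
          have := le_max_right W 0
          show _ ≤ 2 * (q + max W 0)
          linarith
  have h5 : 0 ≤ √2 * g := by positivity
  have h6 : (√2 * g) ^ 2 = g * (2 * g) := by
    rw [mul_pow, Real.sq_sqrt (by norm_num)]
    ring
  by_contra h7
  have h8 : √2 * g < 1 := not_le.1 h7
  nlinarith

/-- translates of the simplex intersect it in a smaller copy -/
lemma B_key (u : E (k + 1)) (hu : ‖u‖ = 1) (s : ℝ) (hs : 0 < s) (x : E (k + 1)) (hx : x ∈ B k)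
    (hx' : x + s • u ∈ B k) : 0 ≤ 1 - s / √2 ∧ ∃ y ∈ B k,
      x = (WithLp.toLp 2 fun j => s * max (-u j) 0) + (1 - s / √2) • y := by
  have h2 : (0 : ℝ) < √2 := by positivity
  have hg := unit_le u hu
  set q := ∑ j, max (-u j) 0 with hq
  set W := ∑ j, u j with hW
  have h1 : ∀ j, s * max (-u j) 0 ≤ x j := fun j => by
    have a1 := hx.1 j
    have a2 := hx'.1 j
    simp only [PiLp.add_apply, PiLp.smul_apply, smul_eq_mul] at a2
    rcases le_total 0 (u j) with h | h
    · rw [max_eq_right (by linarith), mul_zero]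
      exact a1
    · rw [max_eq_left (by linarith)]
      linarith
  have h3 : ∑ j, x j ≤ 1 - s * max W 0 := by
    have a1 := hx.2
    have a2 := hx'.2
    simp only [PiLp.add_apply, PiLp.smul_apply, smul_eq_mul] at a2
    rw [Finset.sum_add_distrib, ← Finset.mul_sum, ← hW] at a2
    rcases le_total 0 W with h | h
    · rw [max_eq_left h]
      linarith
    · rw [max_eq_right h]
      linarith
  have h4 : ∑ j, (x j - s * max (-u j) 0) ≤ 1 - s / √2 := by
    rw [Finset.sum_sub_distrib, ← Finset.mul_sum, ← hq]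
    have h5 : s / √2 ≤ s * (q + max W 0) := by
      rw [div_le_iff₀ h2]
      nlinarith
    linarith
  have h6 : ∀ j, 0 ≤ x j - s * max (-u j) 0 := fun j => sub_nonneg.2 (h1 j)
  have h7 : 0 ≤ 1 - s / √2 := (Finset.sum_nonneg fun j _ => h6 j).trans h4
  refine ⟨h7, ?_⟩
  rcases h7.eq_or_lt with h8 | h8
  · refine ⟨0, ⟨fun j => le_rfl, by simp⟩, ?_⟩
    ext j
    have h9 : ∑ j, (x j - s * max (-u j) 0) = 0 :=
      le_antisymm (h4.trans h8.symm.le) (Finset.sum_nonneg fun j _ => h6 j)
    have h10 := (Finset.sum_eq_zero_iff_of_nonneg fun j _ => h6 j).1 h9 j (Finset.mem_univ j)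
    simp only [PiLp.add_apply, PiLp.smul_apply, smul_eq_mul]
    rw [← h8]
    linarith
  · refine ⟨WithLp.toLp 2 fun j => (x j - s * max (-u j) 0) / (1 - s / √2),
      ⟨fun j => div_nonneg (h6 j) h8.le, ?_⟩, ?_⟩
    · show ∑ j, (x j - s * max (-u j) 0) / (1 - s / √2) ≤ 1
      rw [← Finset.sum_div, div_le_one h8]
      exact h4
    · ext j
      simp only [PiLp.add_apply, PiLp.smul_apply, smul_eq_mul]
      rw [mul_div_cancel₀ _ h8.ne']
      ring

lemma B_low (L : Submodule ℝ (E (k + 1))) (hL : finrank ℝ L = k) :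
    volume (B k) ≤ ENNReal.ofReal (√2 / (k + 1)) * volume (L.orthogonalProjectionOnto '' B k) := by
  obtain ⟨u, hu, h⟩ := exists_unit L hL
  refine low L hL u hu h B_compact B_convex (by positivity) fun s hs => ⟨fun _ => ?_, fun h1 x hx hx' => ?_⟩
  · exact ⟨_, fun x hx hx' => (B_key u hu s hs x hx hx').2⟩
  · have := (B_key u hu s hs x hx hx').1
    rw [sub_nonneg, div_le_one (by positivity)] at this
    linarith

lemma B_interior : (interior (B k)).Nonempty := by
  refine ⟨WithLp.toLp 2 fun _ => 1 / (k + 2), ?_⟩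
  rw [mem_interior]
  refine ⟨{x : E (k + 1) | (∀ j, 0 < x j) ∧ ∑ j, x j < 1}, fun x hx => ⟨fun j => (hx.1 j).le, hx.2.le⟩,
    ?_, fun j => ?_, ?_⟩
  · have e : {x : E (k + 1) | (∀ j, 0 < x j) ∧ ∑ j, x j < 1} =
        (⋂ j, {x : E (k + 1) | 0 < x j}) ∩ {x | ∑ j, x j < 1} := by
      ext x
      simp
    rw [e]
    exact (isOpen_iInter_of_finite fun j => isOpen_lt (by fun_prop) (by fun_prop)).inter
      (isOpen_lt (by fun_prop) (by fun_prop))
  · show (0 : ℝ) < 1 / (k + 2)
    positivity
  · show ∑ _ : Fin (k + 1), (1 / (k + 2) : ℝ) < 1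
    rw [Finset.sum_const, Finset.card_univ, Fintype.card_fin, nsmul_eq_mul, mul_one_div,
      div_lt_one (by positivity)]
    push_cast
    linarith

lemma B_pos : 0 < volume (B k) :=
  (isOpen_interior.measure_pos volume B_interior).trans_le (measure_mono interior_subset)

end Pool.Agent.H811.SP
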