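import Pool.Agent.H811.SP.Cov
set_option autoImplicit false

/-!
# The tail of the lengths of the chords
-/

namespace Pool.Agent.H811.SP

open MeasureTheory Module Set Filter Topology
open scoped RealInnerProductSpace ENNReal Pointwise

variable {k : ℕ}

variable (L : Submodule ℝ (E (k + 1))) (hL : finrank ℝ L = k) (u : E (k + 1)) (hu : ‖u‖ = 1)
  (h : ∀ y ∈ L, ⟪y, u⟫ = 0) {K : Set (E (k + 1))} (hK : IsCompact K) (hv : Convex ℝ K)

lemma vol_pos {x0 : E (k + 1)} {ρ : ℝ} (hρ : 0 < ρ) (hball : Metric.closedBall x0 ρ ⊆ K) :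
    0 < volume K :=
  (Metric.measure_closedBall_pos volume x0 hρ).trans_le (measure_mono hball)

include hL hu h hK hv in
lemma tail_real {x0 : E (k + 1)} {ρ : ℝ} (hρ : 0 < ρ) (hball : Metric.closedBall x0 ρ ⊆ K)
    {s : ℝ} (hs : 0 < s) :
    (volume (sh K u s)).toReal ≤ Real.exp (-(s * (volume (L.orthogonalProjectionOnto '' K)).toReal /
      (volume K).toReal)) * (volume K).toReal := by
  set v := (volume K).toReal with hvd
  set d := (volume (L.orthogonalProjectionOnto '' K)).toReal with hd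
  set T := (volume (sh K u s)).toReal with hT
  have hKt : volume K ≠ ⊤ := hK.measure_lt_top.ne
  have hDt : volume (L.orthogonalProjectionOnto '' K) ≠ ⊤ :=
    (hK.image L.orthogonalProjectionOnto.continuous).measure_lt_top.ne
  have hv0 : 0 < v := ENNReal.toReal_pos (vol_pos hρ hball).ne' hKt
  have hd0 : 0 ≤ d := ENNReal.toReal_nonneg
  have hT0 : 0 ≤ T := ENNReal.toReal_nonneg
  rcases hT0.eq_or_lt with hT1 | hT1
  · rw [← hT1]
    positivity
  have key : ∀ t : ℝ, 0 < t → t < s → t ≤ 2 * ρ →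
      Real.log (T / v) ≤ -(s / v * (1 - t / (2 * ρ)) ^ k * d) := by
    intro t ht hts htρ
    set θ := t / s with hθ
    have hθ0 : 0 < θ := by positivity
    have hθ1 : θ < 1 := by
      rw [hθ, div_lt_one hs]
      exact hts
    have e1 : θ * s = t := div_mul_cancel₀ _ hs.ne'
    have h1 := cov_pl hK hv u s θ hθ0 hθ1
    rw [e1] at h1
    have hsht : volume (sh K u t) ≠ ⊤ := (sh_compact hK u t).measure_lt_top.ne
    have hshs : volume (sh K u s) ≠ ⊤ := (sh_compact hK u s).measure_lt_top.ne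
    have h2 : v ^ (1 - θ) * T ^ θ ≤ (volume (sh K u t)).toReal := by
      have := ENNReal.toReal_mono hsht h1
      rw [ENNReal.toReal_mul, ← ENNReal.toReal_rpow, ← ENNReal.toReal_rpow] at this
      exact this
    have h3 := deriv_le L hL u hu h hK hv hρ hball ht htρ
    have hc0 : 0 ≤ t * (1 - t / (2 * ρ)) ^ k := by
      refine mul_nonneg ht.le (pow_nonneg ?_ k)
      rw [sub_nonneg, div_le_one (by positivity)]
      exact htρ
    have h4 : (volume (sh K u t)).toReal + t * (1 - t / (2 * ρ)) ^ k * d ≤ v := by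
      have := ENNReal.toReal_mono hKt h3
      rw [ENNReal.toReal_add hsht (ENNReal.mul_ne_top ENNReal.ofReal_ne_top hDt),
        ENNReal.toReal_mul, ENNReal.toReal_ofReal hc0] at this
      exact this
    have h5 : (T / v) ^ θ ≤ 1 - t * (1 - t / (2 * ρ)) ^ k * d / v := by
      rw [Real.div_rpow hT1.le hv0.le, div_le_iff₀ (Real.rpow_pos_of_pos hv0 θ)]
      have h6 : v ^ (1 - θ) * T ^ θ ≤ v - t * (1 - t / (2 * ρ)) ^ k * d := by linarith
      have h7 : 0 < v ^ (1 - θ) := Real.rpow_pos_of_pos hv0 _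
      have h8 : v ^ (1 - θ) * v ^ θ = v := by
        rw [← Real.rpow_add hv0, sub_add_cancel, Real.rpow_one]
      have h9 : v ^ (1 - θ) * T ^ θ ≤
          v ^ (1 - θ) * ((1 - t * (1 - t / (2 * ρ)) ^ k * d / v) * v ^ θ) := by
        have : v ^ (1 - θ) * ((1 - t * (1 - t / (2 * ρ)) ^ k * d / v) * v ^ θ) =
            v - t * (1 - t / (2 * ρ)) ^ k * d := by
          rw [mul_left_comm, h8]
          field_simp
        rw [this]
        exact h6
      exact le_of_mul_le_mul_left h9 h7
    have hTv : 0 < T / v := div_pos hT1 hv0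
    have h10 : θ * Real.log (T / v) ≤ -(t * (1 - t / (2 * ρ)) ^ k * d / v) := by
      rw [← Real.log_rpow hTv]
      have h11 : 0 < (T / v) ^ θ := Real.rpow_pos_of_pos hTv _
      have h12 := Real.log_le_sub_one_of_pos h11
      linarith
    have h13 : Real.log (T / v) ≤ -(t * (1 - t / (2 * ρ)) ^ k * d / v) / θ := by
      rw [le_div_iff₀ hθ0, mul_comm]
      exact h10
    refine h13.trans (le_of_eq ?_)
    rw [hθ]
    field_simp
  have hlim : Tendsto (fun t : ℝ => -(s / v * (1 - t / (2 * ρ)) ^ k * d)) (𝓝[>] 0)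
      (𝓝 (-(s / v * (1 - 0 / (2 * ρ)) ^ k * d))) := by
    have hc : Continuous fun t : ℝ => -(s / v * (1 - t / (2 * ρ)) ^ k * d) := by fun_prop
    exact (hc.tendsto 0).mono_left nhdsWithin_le_nhds
  have h14 : Real.log (T / v) ≤ -(s / v * (1 - 0 / (2 * ρ)) ^ k * d) := by
    refine ge_of_tendsto hlim ?_
    filter_upwards [Ioo_mem_nhdsGT (show (0 : ℝ) < min s (2 * ρ) by positivity)] with t ht
    exact key t ht.1 (ht.2.trans_le (min_le_left _ _)) (ht.2.trans_le (min_le_right _ _)).le
  rw [zero_div, sub_zero, one_pow, mul_one] at h14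
  have h15 := (Real.log_le_iff_le_exp (div_pos hT1 hv0)).1 h14
  rw [div_le_iff₀ hv0] at h15
  refine h15.trans (le_of_eq ?_)
  congr 2
  ring

include hL hu h hK hv in
/-- the part of `K` over the projection of `A` -/
lemma part {x0 : E (k + 1)} {ρ : ℝ} (hρ : 0 < ρ) (hball : Metric.closedBall x0 ρ ⊆ K)
    {A : Set (E (k + 1))} (hA : IsCompact A) {s : ℝ} (hs : 0 < s) {σ : ℝ}
    (hσ : ENNReal.ofReal σ ≤ volume (L.orthogonalProjectionOnto '' K)) :
    volume (K ∩ A) ≤ ENNReal.ofReal s * volume (L.orthogonalProjectionOnto '' A) +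
      ENNReal.ofReal (Real.exp (-(s * σ / (volume K).toReal))) * volume K := by
  have hB : MeasurableSet (L.orthogonalProjectionOnto '' A) :=
    (hA.image L.orthogonalProjectionOnto.continuous).measurableSet
  have h1 := vol_over L hL u hu h hK hv hB s hs.le
  refine (measure_mono ?_).trans (h1.trans (add_le_add le_rfl ?_))
  · exact fun x hx => ⟨hx.1, ⟨x, hx.2, rfl⟩⟩
  · have hKt : volume K ≠ ⊤ := hK.measure_lt_top.ne
    have hDt : volume (L.orthogonalProjectionOnto '' K) ≠ ⊤ :=
      (hK.image L.orthogonalProjectionOnto.continuous).measure_lt_top.ne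
    have h2 := tail_real L hL u hu h hK hv hρ hball hs
    have h3 : volume (sh K u s) ≠ ⊤ := (sh_compact hK u s).measure_lt_top.ne
    have hv0 : 0 < (volume K).toReal := ENNReal.toReal_pos (vol_pos hρ hball).ne' hKt
    have h4 : σ ≤ (volume (L.orthogonalProjectionOnto '' K)).toReal :=
      (ENNReal.ofReal_le_iff_le_toReal hDt).1 hσ
    rw [← ENNReal.ofReal_toReal h3, ← ENNReal.ofReal_toReal hKt, ← ENNReal.ofReal_mul (by positivity),
      ENNReal.toReal_ofReal ENNReal.toReal_nonneg]
    refine ENNReal.ofReal_le_ofReal (h2.trans ?_)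
    refine mul_le_mul_of_nonneg_right (Real.exp_le_exp.2 ?_) hv0.le
    rw [neg_le_neg_iff]
    gcongr

end Pool.Agent.H811.SP
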