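import Pool.Agent.H811.SP.Few
set_option autoImplicit false

/-!
# Thin prisms
-/

namespace Pool.Agent.H811.SP

open MeasureTheory Module Set Filter Topology
open scoped RealInnerProductSpace ENNReal Pointwise

variable {k : ℕ}

/-- the last coordinate and the others -/
noncomputable def eF (k : ℕ) : (Fin (k + 1) → ℝ) ≃ᵐ ℝ × (Fin k → ℝ) :=
  MeasurableEquiv.piFinSuccAbove (fun _ => ℝ) (Fin.last k)

lemma eF_apply (f : Fin (k + 1) → ℝ) : eF k f = (f (Fin.last k), fun i => f i.castSucc) := by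
  simp [eF, MeasurableEquiv.piFinSuccAbove, Fin.init_def]

lemma eF_mp : MeasurePreserving (eF k) volume volume :=
  volume_preserving_piFinSuccAbove (fun _ => ℝ) (Fin.last k)

/-- a family with one more vector -/
noncomputable def fam (v : Fin k → E (k + 1)) (w : E (k + 2)) : Fin (k + 1) → E (k + 2) :=
  Fin.snoc (α := fun _ => E (k + 2)) (fun i => ext (v i) 0) w

lemma inner_ext (v : E (k + 1)) (x : E (k + 2)) : ⟪ext v 0, x⟫ = ⟪v, res x⟫ := by
  rw [inner_split, res_ext, ext_last, zero_mul, add_zero]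

lemma fam_orth {v : Fin k → E (k + 1)} (hv : Orthonormal ℝ v) {w : E (k + 2)} (hw : ‖w‖ = 1)
    (hvw : ∀ i, ⟪v i, res w⟫ = 0) : Orthonormal ℝ (fam v w) := by
  rw [orthonormal_iff_ite] at hv ⊢
  intro i j
  refine Fin.lastCases ?_ (fun i => ?_) i
  · refine Fin.lastCases ?_ (fun j => ?_) j
    · simp [fam, hw]
    · have h1 : ⟪w, ext (v j) 0⟫ = 0 := by
        rw [real_inner_comm, inner_ext]
        exact hvw j
      simp only [fam, Fin.snoc_last, Fin.snoc_castSucc, h1]
      rw [if_neg (Fin.castSucc_lt_last j).ne']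
  · refine Fin.lastCases ?_ (fun j => ?_) j
    · have h1 : ⟪ext (v i) 0, w⟫ = 0 := by
        rw [inner_ext]
        exact hvw i
      simp only [fam, Fin.snoc_last, Fin.snoc_castSucc, h1]
      rw [if_neg (Fin.castSucc_lt_last i).ne]
    · simp only [fam, Fin.snoc_castSucc, inner_ext, res_ext, hv, Fin.castSucc_inj]

lemma co_fam (v : Fin k → E (k + 1)) (w x : E (k + 2)) :
    eF k (co (fam v w) x) = (⟪w, x⟫, co v (res x)) := by
  rw [eF_apply]
  refine Prod.ext ?_ ?_
  · simp [co, fam]
  · funext i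
    simp only [co, fam, Fin.snoc_castSucc, inner_ext]

/-- the prism over a body: upper bound -/
lemma thin_le {h : ℝ} (h0 : 0 < h) (A : Set (E (k + 1))) :
    sg (k + 1) (lift h A) ≤ ENNReal.ofReal h * sg k A := by
  unfold sg
  simp_rw [ENNReal.mul_iInf_of_ne (show ENNReal.ofReal h ≠ 0 by simpa using h0)
    ENNReal.ofReal_ne_top]
  refine le_iInf₂ fun v hv => ?_
  have hw : ‖(ext 0 1 : E (k + 2))‖ = 1 := by
    have := norm_split (ext (0 : E (k + 1)) 1)
    rw [res_ext, ext_last, norm_zero] at this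
    have h1 : ‖(ext (0 : E (k + 1)) 1 : E (k + 2))‖ ^ 2 = 1 ^ 2 := by rw [this]; ring
    exact (sq_eq_sq₀ (norm_nonneg _) zero_le_one).1 h1
  have ho := fam_orth hv (w := ext 0 1) hw fun i => by rw [res_ext, inner_zero_right]
  refine (iInf₂_le _ ho).trans ?_
  have hsub : co (fam v (ext 0 1)) '' lift h A ⊆ eF k ⁻¹' (Icc 0 h ×ˢ (co v '' A)) := by
    rintro _ ⟨x, hx, rfl⟩
    rw [mem_preimage, co_fam]
    refine ⟨?_, ⟨res x, hx.1, rfl⟩⟩
    rw [inner_split, res_ext, inner_zero_left, zero_add, ext_last, one_mul]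
    exact hx.2
  refine (measure_mono hsub).trans ?_
  rw [eF_mp.measure_preimage_equiv]
  refine (le_of_eq (Measure.prod_prod _ _)).trans ?_
  rw [Real.volume_Icc, sub_zero]

lemma co_cont {n l : ℕ} (v : Fin l → E n) : Continuous (co v) := by
  unfold co
  fun_prop

lemma perp_unique {L : Submodule ℝ (E (k + 2))} (hL : finrank ℝ L = k + 1) {w : E (k + 2)}
    (hw : ‖w‖ = 1) (h : ∀ y ∈ L, ⟪y, w⟫ = 0) : L = (ℝ ∙ w)ᗮ := by
  have : Fact (finrank ℝ (E (k + 2)) = (k + 1) + 1) := ⟨finrank_euclideanSpace_fin⟩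
  refine Submodule.eq_of_le_of_finrank_eq (fun y hy => ?_) ?_
  · exact Submodule.mem_orthogonal_singleton_iff_inner_left.2 (h y hy)
  · have hne : w ≠ 0 := by
      rw [← norm_ne_zero_iff, hw]
      exact one_ne_zero
    have e : finrank ℝ (ℝ ∙ w)ᗮ = k + 1 := Submodule.finrank_orthogonal_span_singleton hne
    rw [hL, e]

/-- the projection along an almost horizontal direction -/
lemma thin_side {V : Fin (k + 1) → E (k + 2)} (hV : Orthonormal ℝ V) {w : E (k + 2)}
    (hw : ‖w‖ = 1) (hVw : ∀ i, ⟪V i, w⟫ = 0) {K : Set (E (k + 1))} (hK : IsCompact K) {h : ℝ}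
    (ha : 0 < ‖res w‖) :
    ENNReal.ofReal (‖res w‖ * h) * sg k K ≤ volume (co V '' lift h K) := by
  set a := res w with had
  set β := w (Fin.last (k + 1)) with hβ
  have hn := norm_split w
  rw [hw, ← had, ← hβ] at hn
  set â : E (k + 1) := ‖a‖⁻¹ • a with hâ
  have hân : ‖â‖ = 1 := by
    rw [hâ, norm_smul, norm_inv, norm_norm]
    exact inv_mul_cancel₀ ha.ne'
  have haâ : ⟪â, a⟫ = ‖a‖ := by
    rw [hâ, inner_smul_left, real_inner_self_eq_norm_sq]
    simp only [conj_trivial]
    field_simp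
  have hM : finrank ℝ (ℝ ∙ â)ᗮ = k := by
    have : Fact (finrank ℝ (E (k + 1)) = k + 1) := ⟨finrank_euclideanSpace_fin⟩
    refine Submodule.finrank_orthogonal_span_singleton ?_
    rw [← norm_ne_zero_iff, hân]
    exact one_ne_zero
  set b := (stdOrthonormalBasis ℝ (ℝ ∙ â)ᗮ).reindex (finCongr hM)
  set m : Fin k → E (k + 1) := fun i => (b i : E (k + 1)) with hm
  have hmo : Orthonormal ℝ m := ⟨fun i => b.orthonormal.1 i, fun i j hij => b.orthonormal.2 hij⟩
  have hmâ : ∀ i, ⟪m i, â⟫ = 0 := fun i =>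
    Submodule.mem_orthogonal_singleton_iff_inner_left.1 (b i).2
  have hma : ∀ i, ⟪m i, a⟫ = 0 := fun i => by
    have h1 := hmâ i
    rw [hâ, inner_smul_right] at h1
    exact (mul_eq_zero.1 h1).resolve_left (inv_ne_zero ha.ne')
  set w' : E (k + 2) := ext (-β • â) ‖a‖ with hw'
  have hw'n : ‖w'‖ = 1 := by
    have h1 := norm_split w'
    rw [hw', res_ext, ext_last, norm_smul, hân, mul_one, Real.norm_eq_abs, sq_abs] at h1
    have h2 : ‖w'‖ ^ 2 = 1 ^ 2 := by
      rw [hw', h1]
      linarith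
    exact (sq_eq_sq₀ (norm_nonneg _) zero_le_one).1 h2
  have hfo := fam_orth hmo hw'n fun i => by
    rw [hw', res_ext, inner_smul_right, hmâ, mul_zero]
  have hfw : ∀ i, ⟪fam m w' i, w⟫ = 0 := fun i => by
    refine Fin.lastCases ?_ (fun i => ?_) i
    · simp only [fam, Fin.snoc_last]
      rw [inner_split, hw', res_ext, ext_last, inner_smul_left, ← had, haâ, ← hβ]
      simp only [conj_trivial]
      ring
    · simp only [fam, Fin.snoc_castSucc]
      rw [inner_ext]
      exact hma i
  have harea : volume (co V '' lift h K) = volume (co (fam m w') '' lift h K) := by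
    obtain ⟨L1, b1, hL1, hb1⟩ := exists_span V hV
    obtain ⟨L2, b2, hL2, hb2⟩ := exists_span (fam m w') hfo
    have q1 : ∀ y ∈ L1, ⟪y, w⟫ = 0 := fun y hy => by
      have h1 := b1.sum_repr' ⟨y, hy⟩
      have h2 : y = ∑ i, ⟪(b1 i : L1), ⟨y, hy⟩⟫ • V i := by
        have h3 := congrArg (Subtype.val) h1
        rw [Submodule.coe_sum] at h3
        simp only [Submodule.coe_smul, hb1] at h3
        exact h3.symm
      rw [h2, sum_inner]
      refine Finset.sum_eq_zero fun i _ => ?_
      rw [inner_smul_left, hVw, mul_zero]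
    have q2 : ∀ y ∈ L2, ⟪y, w⟫ = 0 := fun y hy => by
      have h1 := b2.sum_repr' ⟨y, hy⟩
      have h2 : y = ∑ i, ⟪(b2 i : L2), ⟨y, hy⟩⟫ • fam m w' i := by
        have h3 := congrArg (Subtype.val) h1
        rw [Submodule.coe_sum] at h3
        simp only [Submodule.coe_smul, hb2] at h3
        exact h3.symm
      rw [h2, sum_inner]
      refine Finset.sum_eq_zero fun i _ => ?_
      rw [inner_smul_left, hfw, mul_zero]
    have e1 : co V = co fun i => (b1 i : E (k + 2)) := by
      funext x i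
      show ⟪V i, x⟫ = ⟪(b1 i : E (k + 2)), x⟫
      rw [hb1]
    have e2 : co (fam m w') = co fun i => (b2 i : E (k + 2)) := by
      funext x i
      show ⟪fam m w' i, x⟫ = ⟪(b2 i : E (k + 2)), x⟫
      rw [hb2]
    rw [e1, e2, area_eq, area_eq]
    have r1 := perp_unique hL1 hw q1
    have r2 := perp_unique hL2 hw q2
    rw [r1, r2]
  rw [harea]
  set S := co (fam m w') '' lift h K with hS
  have hSm : MeasurableSet S := ((lift_compact hK).image (co_cont _)).measurableSet
  have hDm : MeasurableSet (co m '' K) := (hK.image (co_cont _)).measurableSet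
  have e3 : volume S = (volume : Measure (ℝ × (Fin k → ℝ))) ((eF k).symm ⁻¹' S) :=
    ((eF_mp.symm (eF k)).measure_preimage_equiv S).symm
  rw [e3]
  have e4 : (volume : Measure (ℝ × (Fin k → ℝ))) ((eF k).symm ⁻¹' S) =
      ∫⁻ y : Fin k → ℝ, volume {t : ℝ | (eF k).symm (t, y) ∈ S} :=
    Measure.prod_apply_symm ((eF k).symm.measurable hSm)
  rw [e4]
  calc ENNReal.ofReal (‖a‖ * h) * sg k K
      ≤ ENNReal.ofReal (‖a‖ * h) * volume (co m '' K) := mul_le_mul_right (iInf₂_le m hmo) _
    _ = ∫⁻ _ in co m '' K, ENNReal.ofReal (‖a‖ * h) := by rw [lintegral_const]; simp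
    _ ≤ ∫⁻ y in co m '' K, volume {t : ℝ | (eF k).symm (t, y) ∈ S} := by
        refine setLIntegral_mono' hDm fun y hy => ?_
        obtain ⟨x, hx, rfl⟩ := hy
        have h5 : Icc (-β * ⟪â, x⟫) (-β * ⟪â, x⟫ + ‖a‖ * h) ⊆
            {t : ℝ | (eF k).symm (t, co m x) ∈ S} := by
          intro t ht
          refine ⟨ext x ((t + β * ⟪â, x⟫) / ‖a‖), ⟨?_, ?_, ?_⟩, ?_⟩
          · rw [res_ext]
            exact hx
          · rw [ext_last]
            refine div_nonneg ?_ ha.le
            linarith [ht.1]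
          · rw [ext_last, div_le_iff₀ ha]
            linarith [ht.2]
          · apply (eF k).injective
            rw [co_fam, MeasurableEquiv.apply_symm_apply, res_ext]
            refine Prod.ext ?_ rfl
            show ⟪w', ext x ((t + β * ⟪â, x⟫) / ‖a‖)⟫ = t
            rw [inner_split, hw', res_ext, res_ext, ext_last, ext_last, inner_smul_left,
              mul_div_cancel₀ _ ha.ne']
            simp only [conj_trivial]
            ring
        refine le_trans (le_of_eq ?_) (measure_mono h5)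
        rw [Real.volume_Icc, add_sub_cancel_left]
    _ ≤ _ := setLIntegral_le_lintegral _ _

end Pool.Agent.H811.SP
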