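import Pool.Agent.H811.SP.Thin
set_option autoImplicit false

/-!
# Thin prisms, lower bound
-/

namespace Pool.Agent.H811.SP

open MeasureTheory Module Set Filter Topology
open scoped RealInnerProductSpace ENNReal Pointwise

variable {k : ℕ}

/-- the normal of an orthonormal family -/
lemma exists_normal {V : Fin (k + 1) → E (k + 2)} (hV : Orthonormal ℝ V) :
    ∃ w : E (k + 2), ‖w‖ = 1 ∧ (∀ i, ⟪V i, w⟫ = 0) ∧
      ∀ x : E (k + 2), ‖x‖ ^ 2 = ∑ i, ⟪V i, x⟫ ^ 2 + ⟪x, w⟫ ^ 2 := by
  obtain ⟨L, b, hL, hb⟩ := exists_span V hV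
  obtain ⟨w, hw, h⟩ := exists_unit L hL
  refine ⟨w, hw, fun i => by rw [← hb i]; exact h _ (b i).2, fun x => ?_⟩
  have h1 := proj_add L hL w hw h x
  set y := L.orthogonalProjectionOnto x with hy
  have h2 : ‖x‖ ^ 2 = ‖y‖ ^ 2 + ⟪x, w⟫ ^ 2 := by
    conv_lhs => rw [h1]
    rw [@norm_add_sq_real, inner_smul_right, h _ y.2, norm_smul, hw]
    simp [sq_abs]
  rw [h2]
  congr 1
  rw [← b.sum_sq_norm_inner_right y]
  refine Finset.sum_congr rfl fun i _ => ?_
  rw [Real.norm_eq_abs, sq_abs]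
  congr 1
  rw [Submodule.coe_inner, hb]
  conv_rhs => rw [h1]
  rw [inner_add_right, inner_smul_right, ← hb i, h _ (b i).2, mul_zero, add_zero]

lemma inner_e (x : E (k + 2)) : ⟪x, ext (0 : E (k + 1)) 1⟫ = x (Fin.last (k + 1)) := by
  rw [inner_split, res_ext, inner_zero_right, zero_add, ext_last, mul_one]

lemma norm_e : ‖(ext (0 : E (k + 1)) 1 : E (k + 2))‖ ^ 2 = 1 := by
  have := norm_split (ext (0 : E (k + 1)) 1)
  rw [res_ext, ext_last, norm_zero] at this
  rw [this]
  ring

/-- the projection along a direction which is not almost horizontal -/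
lemma thin_flat {V : Fin (k + 1) → E (k + 2)} (hV : Orthonormal ℝ V) {w : E (k + 2)}
    (hsum : ∀ x : E (k + 2), ‖x‖ ^ 2 = ∑ i, ⟪V i, x⟫ ^ 2 + ⟪x, w⟫ ^ 2)
    {K : Set (E (k + 1))} {h : ℝ} (h0 : 0 ≤ h) :
    ENNReal.ofReal |w (Fin.last (k + 1))| * volume K ≤ volume (co V '' lift h K) := by
  set c : Fin (k + 1) → ℝ := fun i => V i (Fin.last (k + 1)) with hc
  set β := w (Fin.last (k + 1)) with hβ
  have h1 : ∑ i, c i ^ 2 = 1 - β ^ 2 := by
    have := hsum (ext 0 1)
    rw [norm_e, real_inner_comm, inner_e, ← hβ] at this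
    simp only [inner_e] at this
    linarith
  set A : Matrix (Fin (k + 1)) (Fin (k + 1)) ℝ := Matrix.of fun i j => res (V i) j with hA
  have hAA : A * A.transpose = 1 + Matrix.replicateCol Unit (-c) * Matrix.replicateRow Unit c := by
    ext i j
    rw [orthonormal_iff_ite] at hV
    have h2 := hV i j
    rw [inner_split, PiLp.inner_apply] at h2
    simp only [Matrix.mul_apply, Matrix.transpose_apply, hA, Matrix.of_apply, Matrix.add_apply,
      Matrix.one_apply, Matrix.replicateCol_apply, Matrix.replicateRow_apply,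
      Finset.univ_unique, Finset.sum_singleton, Pi.neg_apply]
    rw [← h2]
    have h3 : ∑ x, inner ℝ ((res (V i)).ofLp x) ((res (V j)).ofLp x) =
        ∑ x, (res (V i)).ofLp x * (res (V j)).ofLp x := by
      refine Finset.sum_congr rfl fun x _ => ?_
      simp [mul_comm]
    rw [h3]
    simp only [hc]
    ring
  have hdet : A.det ^ 2 = β ^ 2 := by
    have h4 : (A * A.transpose).det = A.det ^ 2 := by
      rw [Matrix.det_mul, Matrix.det_transpose, sq]
    rw [← h4, hAA, Matrix.det_one_add_replicateCol_mul_replicateRow]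
    simp only [dotProduct, Pi.neg_apply, mul_neg, Finset.sum_neg_distrib]
    have h5 : ∑ i, c i * c i = ∑ i, c i ^ 2 := Finset.sum_congr rfl fun i _ => (sq _).symm
    rw [h5, h1]
    ring
  have habs : |A.det| = |β| := (sq_eq_sq_iff_abs_eq_abs _ _).1 hdet
  set X : Set (Fin (k + 1) → ℝ) := (fun y : E (k + 1) => (y.ofLp : Fin (k + 1) → ℝ)) '' K with hX
  have hXv : volume X = volume K := by
    have hmp := EuclideanSpace.volume_preserving_symm_measurableEquiv_toLp (Fin (k + 1))
    have e : X = (MeasurableEquiv.toLp 2 (Fin (k + 1) → ℝ)).symm '' K := rfl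
    rw [e, MeasurableEquiv.image_eq_preimage_symm]
    exact (hmp.symm _).measure_preimage_equiv _
  have hsub : Matrix.toLin' A '' X ⊆ co V '' lift h K := by
    rintro _ ⟨_, ⟨y, hy, rfl⟩, rfl⟩
    refine ⟨ext y 0, ⟨?_, ?_, ?_⟩, ?_⟩
    · rw [res_ext]
      exact hy
    · rw [ext_last]
    · rw [ext_last]
      exact h0
    · funext i
      rw [Matrix.toLin'_apply]
      show ⟪V i, ext y 0⟫ = ∑ j, A i j * y j
      rw [inner_split, res_ext, ext_last, mul_zero, add_zero, PiLp.inner_apply]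
      refine Finset.sum_congr rfl fun j _ => ?_
      simp [hA, mul_comm]
  refine le_trans (le_of_eq ?_) (measure_mono hsub)
  rw [Measure.addHaar_image_linearMap, LinearMap.det_toLin', habs, hXv]

lemma thin_low {K : Set (E (k + 1))} (hK : IsCompact K) (hv : Convex ℝ K)
    (hi : (interior K).Nonempty) {ε : ℝ} (h0 : 0 < ε) (h1 : ε < 1) :
    ∃ h : ℝ, 0 < h ∧ ENNReal.ofReal (1 - ε) * (ENNReal.ofReal h * sg k K) ≤
      sg (k + 1) (lift h K) := by
  have hKt : volume K ≠ ⊤ := hK.measure_lt_top.ne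
  have hst : sg k K ≠ ⊤ := sg_ne_top (by omega) hK
  have hs0 : sg k K ≠ 0 := sg_pos hK hv hi
  have hv0 : 0 < (volume K).toReal := by
    obtain ⟨x0, hx0⟩ := hi
    rw [mem_interior_iff_mem_nhds] at hx0
    obtain ⟨ρ, hρ, hball⟩ := Metric.nhds_basis_closedBall.mem_iff.1 hx0
    exact ENNReal.toReal_pos (vol_pos hρ hball).ne' hKt
  have hσ0 : 0 < (sg k K).toReal := ENNReal.toReal_pos hs0 hst
  set V := (volume K).toReal with hVd
  set σ := (sg k K).toReal with hσd
  refine ⟨ε * V / σ, by positivity, le_iInf₂ fun W hW => ?_⟩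
  obtain ⟨w, hw, hWw, hsum⟩ := exists_normal hW
  have hn := norm_split w
  rw [hw] at hn
  have hβ1 : |w (Fin.last (k + 1))| ≤ 1 := by
    refine abs_le_of_sq_le_sq ?_ zero_le_one
    nlinarith [sq_nonneg ‖res w‖]
  by_cases hb : ε ≤ |w (Fin.last (k + 1))|
  · refine le_trans ?_ (thin_flat hW hsum (h := ε * V / σ) (by positivity))
    rw [← ENNReal.ofReal_toReal hst, ← ENNReal.ofReal_toReal hKt, ← hVd, ← hσd,
      ← ENNReal.ofReal_mul (by positivity), ← ENNReal.ofReal_mul (by linarith),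
      ← ENNReal.ofReal_mul (abs_nonneg _)]
    refine ENNReal.ofReal_le_ofReal ?_
    rw [div_mul_cancel₀ _ hσ0.ne']
    have h2 : 0 < ε * V := by positivity
    nlinarith
  · have hb' : |w (Fin.last (k + 1))| < ε := not_le.1 hb
    have hb2 : w (Fin.last (k + 1)) ^ 2 < ε ^ 2 := by
      rw [← sq_abs]
      exact pow_lt_pow_left₀ hb' (abs_nonneg _) two_ne_zero
    have ha : 1 - ε ≤ ‖res w‖ := by
      by_contra h3
      have h4 := not_le.1 h3
      nlinarith [norm_nonneg (res w)]
    have ha0 : 0 < ‖res w‖ := by linarith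
    refine le_trans ?_ (thin_side hW hw hWw hK (h := ε * V / σ) ha0)
    rw [← mul_assoc, ← ENNReal.ofReal_mul (by linarith)]
    refine mul_le_mul' (ENNReal.ofReal_le_ofReal ?_) le_rfl
    exact mul_le_mul_of_nonneg_right ha (by positivity)

end Pool.Agent.H811.SP
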