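import Pool.Agent.H811.SP.Pcs
set_option autoImplicit false

/-!
# Volumes of the pieces
-/

namespace Pool.Agent.H811.SP

open MeasureTheory Module Set
open scoped RealInnerProductSpace ENNReal Pointwise

variable {k : ℕ}

/-- the linear form `S i` -/
noncomputable def Sl (i : Fin ((k + 1) / 2)) : E (k + 1) →ₗ[ℝ] ℝ where
  toFun := S i
  map_add' x y := by
    simp only [S, PiLp.add_apply]
    ring
  map_smul' c x := by
    simp only [S, PiLp.smul_apply, smul_eq_mul, RingHom.id_apply]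
    ring

lemma S_single (i j : Fin ((k + 1) / 2)) :
    S j (EuclideanSpace.single (p i) (1 : ℝ) : E (k + 1)) = if j = i then 1 else 0 := by
  simp only [S, PiLp.single_apply, p_inj]
  rw [if_neg (Ne.symm (p_ne (i := i) (j := j)))]
  simp

lemma null (i j : Fin ((k + 1) / 2)) (h : i ≠ j) :
    volume {x : E (k + 1) | S i x = S j x} = 0 := by
  have e : {x : E (k + 1) | S i x = S j x} = (LinearMap.ker (Sl i - Sl j) : Set (E (k + 1))) := by
    ext x
    simp only [SetLike.mem_coe, LinearMap.mem_ker, LinearMap.sub_apply, mem_ofPred_eq]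
    exact sub_eq_zero.symm
  rw [e]
  refine Measure.addHaar_submodule _ _ fun h1 => ?_
  have h2 : (EuclideanSpace.single (p i) (1 : ℝ) : E (k + 1)) ∈ LinearMap.ker (Sl i - Sl j) := by
    rw [h1]
    trivial
  rw [LinearMap.mem_ker, LinearMap.sub_apply] at h2
  have h3 : S i (EuclideanSpace.single (p i) (1 : ℝ) : E (k + 1)) -
    S j (EuclideanSpace.single (p i) (1 : ℝ)) = 0 := h2
  rw [S_single, S_single, if_pos rfl, if_neg h.symm] at h3
  norm_num at h3

lemma sum_le {A : Fin ((k + 1) / 2) → Set (E (k + 1))} {D : Set (E (k + 1))}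
    (hm : ∀ i, MeasurableSet (A i)) (h1 : ∀ i, A i ⊆ D)
    (h2 : ∀ i, ∀ x ∈ A i, ∀ j, S j x ≤ S i x) : ∑ i, volume (A i) ≤ volume D := by
  have hd : Pairwise (Function.onFun (AEDisjoint volume) A) := fun i j hij => by
    refine measure_mono_null ?_ (null i j hij)
    rintro x ⟨hx1, hx2⟩
    exact le_antisymm (h2 j x hx2 i) (h2 i x hx1 j)
  have h := measure_iUnion₀ hd fun i => (hm i).nullMeasurableSet
  rw [tsum_fintype] at h
  rw [← h]
  exact measure_mono (iUnion_subset h1)

/-- the set where all `S i` are small -/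
def Q (k : ℕ) (r : ℝ) : Set (E (k + 1)) := B k ∩ {x | ∀ j, S j x ≤ r}

lemma Q_compact (r : ℝ) : IsCompact (Q k r) := by
  refine B_compact.inter_right ?_
  rw [show {x : E (k + 1) | ∀ j, S j x ≤ r} = ⋂ j, {x | S j x ≤ r} by ext x; simp]
  exact isClosed_iInter fun j => isClosed_le (S_cont j) continuous_const

lemma single_mem (j : Fin (k + 1)) : (EuclideanSpace.single j (1 : ℝ) : E (k + 1)) ∈ B k := by
  refine ⟨fun i => ?_, ?_⟩
  · rw [PiLp.single_apply]
    split_ifs <;> norm_num
  · simp [PiLp.single_apply]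

lemma Q_le {r : ℝ} (h0 : 0 < r) (h1 : r < 1) :
    (((k + 1) / 2 : ℕ) : ℝ≥0∞) * ENNReal.ofReal ((1 - r) ^ (k + 1)) * volume (Q k r) ≤
      volume (B k) := by
  set T : Fin ((k + 1) / 2) → Set (E (k + 1)) := fun i =>
    (fun y => r • EuclideanSpace.single (p i) (1 : ℝ) + y) '' ((1 - r) • Q k r) with hT
  have hT1 : ∀ i, volume (T i) = ENNReal.ofReal ((1 - r) ^ (k + 1)) * volume (Q k r) := fun i => by
    rw [hT]
    simp only
    rw [image_add_left, measure_preimage_add, Measure.addHaar_smul, finrank_euclideanSpace_fin,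
      abs_of_nonneg (pow_nonneg (by linarith) _)]
  have hSl : ∀ (i : Fin ((k + 1) / 2)) (a b : ℝ) (x y : E (k + 1)),
      S i (a • x + b • y) = a * S i x + b * S i y := fun i a b x y => by
    have := (Sl i).map_add (a • x) (b • y)
    rw [map_smul, map_smul] at this
    exact this
  have hT2 : ∀ i, ∀ x ∈ T i, x ∈ B k ∧ r ≤ S i x ∧ ∀ j, j ≠ i → S j x < r := by
    rintro i _ ⟨_, ⟨y, hy, rfl⟩, rfl⟩
    refine ⟨B_convex (single_mem _) hy.1 h0.le (by linarith) (by ring), ?_, fun j hj => ?_⟩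
    · show r ≤ S i (r • EuclideanSpace.single (p i) (1 : ℝ) + (1 - r) • y)
      rw [hSl, S_single, if_pos rfl]
      have h2 : 0 ≤ S i y := add_nonneg (hy.1.1 _) (hy.1.1 _)
      nlinarith
    · show S j (r • EuclideanSpace.single (p i) (1 : ℝ) + (1 - r) • y) < r
      rw [hSl, S_single, if_neg hj]
      have h2 := hy.2 j
      nlinarith
  have hm : ∀ i, MeasurableSet (T i) := fun i =>
    ((Q_compact (k := k) r).smul (1 - r)).image (by fun_prop) |>.measurableSet
  have hd : Pairwise (Function.onFun Disjoint T) := fun i j hij => by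
    refine Set.disjoint_left.2 fun x hx hx' => ?_
    have a1 := (hT2 i x hx).2.1
    have a2 := (hT2 j x hx').2.2 i hij
    linarith
  calc (((k + 1) / 2 : ℕ) : ℝ≥0∞) * ENNReal.ofReal ((1 - r) ^ (k + 1)) * volume (Q k r)
      = ∑ i, volume (T i) := by
        simp only [hT1]
        rw [Finset.sum_const, Finset.card_univ, Fintype.card_fin, nsmul_eq_mul, mul_assoc]
    _ = volume (⋃ i, T i) := by rw [measure_iUnion hd hm, tsum_fintype]
    _ ≤ volume (B k) := measure_mono (iUnion_subset fun i x hx => (hT2 i x hx).1)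

/-- the pieces -/
def P (i : Fin ((k + 1) / 2)) : Set (E (k + 1)) :=
  B k ∩ {x | (∀ j, S j x ≤ S i x) ∧ 1 / 2 ≤ ∑ j, S j x}

/-- the last piece -/
def P' (k : ℕ) : Set (E (k + 1)) := B k ∩ {x | ∑ j, x j - x (Fin.last k) ≤ 1 / 2}

lemma P_closed (i : Fin ((k + 1) / 2)) :
    IsClosed {x : E (k + 1) | (∀ j, S j x ≤ S i x) ∧ 1 / 2 ≤ ∑ j, S j x} := by
  rw [show {x : E (k + 1) | (∀ j, S j x ≤ S i x) ∧ 1 / 2 ≤ ∑ j, S j x} =
    (⋂ j, {x | S j x ≤ S i x}) ∩ {x | 1 / 2 ≤ ∑ j, S j x} by ext x; simp]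
  exact (isClosed_iInter fun j => isClosed_le (S_cont j) (S_cont i)).inter
    (isClosed_le continuous_const (continuous_finsetSum _ fun j _ => S_cont j))

lemma P_big {i : Fin ((k + 1) / 2)} {x : E (k + 1)} (hx : x ∈ P i) : 1 / (k + 1 : ℝ) ≤ S i x := by
  have h1 := hx.2.2
  have h2 : ∑ j, S j x ≤ ((k + 1) / 2 : ℕ) * S i x := by
    calc ∑ j, S j x ≤ ∑ _ : Fin ((k + 1) / 2), S i x := Finset.sum_le_sum fun j _ => hx.2.1 j
      _ = _ := by rw [Finset.sum_const, Finset.card_univ, Fintype.card_fin, nsmul_eq_mul]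
  have h3 : (((k + 1) / 2 : ℕ) : ℝ) ≤ (k + 1) / 2 := by
    have := Nat.cast_div_le (α := ℝ) (m := k + 1) (n := 2)
    push_cast at this
    exact this
  have h4 : 0 ≤ S i x := add_nonneg (hx.1.1 _) (hx.1.1 _)
  rw [div_le_iff₀ (by positivity)]
  nlinarith

lemma line_inv (i : Fin ((k + 1) / 2)) {x : E (k + 1)}
    (hx : (∀ j, S j x ≤ S i x) ∧ 1 / 2 ≤ ∑ j, S j x) (t : ℝ) :
    (∀ j, S j (x + t • u i) ≤ S i (x + t • u i)) ∧ 1 / 2 ≤ ∑ j, S j (x + t • u i) := by
  simp only [S_line]
  exact hx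

/-- the area of the projection of a piece -/
lemma P_area (i : Fin ((k + 1) / 2)) {r : ℝ} (hr : 0 < r) :
    volume ((ℝ ∙ u i)ᗮ.orthogonalProjectionOnto '' P i) ≤
      ENNReal.ofReal (1 / (√2 * r)) * volume (P i ∩ {x | r ≤ S i x}) +
      ENNReal.ofReal ((k + 1) / √2) * volume (P i ∩ {x | S i x ≤ r}) := by
  have e : P i = (P i ∩ {x | r ≤ S i x}) ∪ (P i ∩ {x | S i x ≤ r}) := by
    ext x
    constructor
    · intro hx
      rcases le_total r (S i x) with h | h
      · exact Or.inl ⟨hx, h⟩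
      · exact Or.inr ⟨hx, h⟩
    · rintro (hx | hx)
      · exact hx.1
      · exact hx.1
  conv_lhs => rw [e, image_union]
  refine (measure_union_le _ _).trans (add_le_add ?_ ?_)
  · unfold P
    rw [inter_assoc]
    refine costP i ((P_closed i).inter (isClosed_le continuous_const (S_cont i)))
      (fun x hx t => ⟨line_inv i hx.1 t, ?_⟩) hr fun x hx => hx.2.2
    show r ≤ S i (x + t • u i)
    rw [S_line]
    exact hx.2
  · have e2 : ((k : ℝ) + 1) / √2 = 1 / (√2 * (1 / (k + 1))) := by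
      have : (0 : ℝ) < k + 1 := by positivity
      field_simp
    rw [e2]
    unfold P
    rw [inter_assoc]
    refine costP i ((P_closed i).inter (isClosed_le (S_cont i) continuous_const))
      (fun x hx t => ⟨line_inv i hx.1 t, ?_⟩) (by positivity) fun x hx => P_big ⟨hx.1, hx.2.1⟩
    show S i (x + t • u i) ≤ r
    rw [S_line]
    exact hx.2

lemma P'_area : volume ((ℝ ∙ (EuclideanSpace.single (Fin.last k) (1 : ℝ) :
    E (k + 1)))ᗮ.orthogonalProjectionOnto '' P' k) ≤ ENNReal.ofReal 2 * volume (B k) := by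
  have h := costL (k := k) (r := 1 / 2) (by norm_num)
    (C := {x | ∑ j, x j - x (Fin.last k) ≤ 1 / 2}) (isClosed_le (by fun_prop) (by fun_prop))
    (fun x hx t => by
      simp only [mem_ofPred_eq, PiLp.add_apply, PiLp.smul_apply, smul_eq_mul, PiLp.single_apply,
        if_true] at hx ⊢
      rw [Finset.sum_add_distrib, ← Finset.mul_sum]
      simp only [Finset.sum_ite_eq', Finset.mem_univ, if_true]
      linarith)
    (fun x hx => by
      have : ∑ j, x j - x (Fin.last k) ≤ 1 / 2 := hx.2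
      linarith)
  rw [show (1 : ℝ) / (1 / 2) = 2 by norm_num] at h
  exact h.trans (mul_le_mul_right (measure_mono inter_subset_left) _)

/-- the sum of the areas -/
lemma total {r : ℝ} (h0 : 0 < r) :
    (∑ i, volume ((ℝ ∙ u i)ᗮ.orthogonalProjectionOnto '' P (k := k) i)) ≤
      ENNReal.ofReal (1 / (√2 * r)) * volume (B k) +
        ENNReal.ofReal ((k + 1) / √2) * volume (Q k r) := by
  refine (Finset.sum_le_sum fun i _ => P_area i h0).trans ?_
  rw [Finset.sum_add_distrib, ← Finset.mul_sum, ← Finset.mul_sum]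
  have hP : ∀ i : Fin ((k + 1) / 2), MeasurableSet (P i) := fun i =>
    (B_compact.inter_right (P_closed i)).measurableSet
  refine add_le_add (mul_le_mul_right (sum_le (fun i => ?_) (fun i => ?_) fun i x hx => ?_) _)
    (mul_le_mul_right (sum_le (fun i => ?_) (fun i x hx => ?_) fun i x hx => ?_) _)
  · exact (hP i).inter (isClosed_le continuous_const (S_cont i)).measurableSet
  · exact inter_subset_left.trans inter_subset_left
  · exact hx.1.2.1
  · exact (hP i).inter (isClosed_le (S_cont i) continuous_const).measurableSet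
  · exact ⟨hx.1.1, fun j => (hx.1.2.1 j).trans hx.2⟩
  · exact hx.1.2.1

end Pool.Agent.H811.SP
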